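import Pool.Agent.Lib.MP_562b47_mp.AL.Reg

/-!
MP_562b47, algebra of the trades: the commutator formula
`Γ^{1/2} [ξ, G] Γ^{1/2} = Kᵀ J K`, `K = G Γ^{1/2}`, `J = [H, ξ]` (nearest neighbour), and the
Hilbert-Schmidt bound of the functional (start of the induction, section 3).
-/

open Matrix Finset

set_option linter.unusedSectionVars false

namespace Pool.Agent.Lib.MP_562b47_mp.AL

variable {ι κ : Type*} [Fintype ι] [DecidableEq ι] [Fintype κ]
variable {A : Matrix ι ι ℝ} {u : ι → ℂ} {s : ι}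

/-- the current matrix `[H, ξ]` -/
noncomputable def Jm (A : Matrix ι ι ℝ) (ξ : ι → ℝ) : Matrix ι ι ℂ :=
  of fun p q => (A p q : ℂ) * ((ξ q - ξ p : ℝ) : ℂ)

/-- squared Hilbert-Schmidt norm -/
noncomputable def hs (M : Matrix ι ι ℂ) : ℝ := ∑ x, ∑ y, ‖M x y‖ ^ 2

/-- `K = G Γ^{1/2}` -/
noncomputable def Km (A : Matrix ι ι ℝ) (u : ι → ℂ) : Matrix ι ι ℂ :=
  of fun p x => GM A u p x * (Real.sqrt (gam u x) : ℂ)

/-- `B = Γ^{1/2} G Γ^{1/2}` -/
noncomputable def Bm (A : Matrix ι ι ℝ) (u : ι → ℂ) : Matrix ι ι ℂ :=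
  of fun p x => (Real.sqrt (gam u p) : ℂ) * GM A u p x * (Real.sqrt (gam u x) : ℂ)

theorem hs_nonneg (M : Matrix ι ι ℂ) : 0 ≤ hs M :=
  sum_nonneg fun _ _ => sum_nonneg fun _ _ => by positivity

theorem hs_transpose (M : Matrix ι ι ℂ) : hs Mᵀ = hs M := by
  unfold hs
  rw [sum_comm]
  rfl

theorem comm_mat (hA : A.IsSymm) (hu : Loss u) (ξ : ι → ℝ) :
    diagonal (fun x => (ξ x : ℂ)) * GM A u - GM A u * diagonal (fun x => (ξ x : ℂ)) =
      GM A u * Jm A ξ * GM A u := by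
  have e1 := GM_mul_HM hA hu
  have e2 := HM_mul_GM hA hu
  have e3 : Jm A ξ = HM A u * diagonal (fun x => (ξ x : ℂ)) -
      diagonal (fun x => (ξ x : ℂ)) * HM A u := by
    ext p q
    rw [Matrix.sub_apply, mul_diagonal, diagonal_mul, HM_apply, Jm, of_apply]
    by_cases h : p = q
    · subst h; simp; ring
    · rw [if_neg h]; push_cast; ring
  rw [e3, mul_sub, sub_mul]
  have h1 : GM A u * (HM A u * diagonal (fun x => (ξ x : ℂ))) * GM A u =
      diagonal (fun x => (ξ x : ℂ)) * GM A u := by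
    rw [← mul_assoc, e1, one_mul]
  have h2 : GM A u * (diagonal (fun x => (ξ x : ℂ)) * HM A u) * GM A u =
      GM A u * diagonal (fun x => (ξ x : ℂ)) := by
    rw [mul_assoc, mul_assoc, e2, mul_one]
  rw [h1, h2]

/-- the functional as a Hilbert-Schmidt norm -/
theorem DU_eq_hs (hA : A.IsSymm) (hu : Loss u) (ξ : κ → ι → ℝ) :
    DU A ξ u = ∑ j, hs ((Km A u)ᵀ * Jm A (ξ j) * Km A u) := by
  have hγ : ∀ x, 0 ≤ gam u x := fun x => (gam_pos hu x).le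
  have h1 : ∀ j x y, ((Km A u)ᵀ * Jm A (ξ j) * Km A u) x y =
      (Real.sqrt (gam u x) : ℂ) * (((ξ j x - ξ j y : ℝ) : ℂ) * GM A u x y) *
        (Real.sqrt (gam u y) : ℂ) := by
    intro j x y
    have h2 := congrFun (congrFun (comm_mat hA hu (ξ j)) x) y
    rw [Matrix.sub_apply, mul_diagonal, diagonal_mul, mul_apply] at h2
    rw [mul_apply]
    have h3 : ∀ q, ((Km A u)ᵀ * Jm A (ξ j)) x q =
        (Real.sqrt (gam u x) : ℂ) * (GM A u * Jm A (ξ j)) x q := by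
      intro q
      rw [mul_apply, mul_apply, mul_sum]
      refine sum_congr rfl fun p _ => ?_
      rw [transpose_apply, Km, of_apply, GM_symm hA u p x]
      ring
    simp_rw [h3]
    have h4 : ∑ q, (Real.sqrt (gam u x) : ℂ) * (GM A u * Jm A (ξ j)) x q * Km A u q y =
        (Real.sqrt (gam u x) : ℂ) * (∑ q, (GM A u * Jm A (ξ j)) x q * GM A u q y) *
          (Real.sqrt (gam u y) : ℂ) := by
      rw [mul_sum, sum_mul]
      refine sum_congr rfl fun q _ => ?_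
      rw [Km, of_apply]
      ring
    rw [h4, ← h2]
    push_cast
    ring
  rw [DU, DD]
  unfold hs
  have h5 : ∀ x y, gam u x * gam u y * ff ξ x y * ‖GM A u x y‖ ^ 2 =
      ∑ j, ‖((Km A u)ᵀ * Jm A (ξ j) * Km A u) x y‖ ^ 2 := by
    intro x y
    rw [ff, mul_sum, sum_mul]
    refine sum_congr rfl fun j _ => ?_
    rw [h1, norm_mul, norm_mul, norm_mul, Complex.norm_real, Complex.norm_real, Complex.norm_real,
      mul_pow, mul_pow, mul_pow, Real.norm_eq_abs, Real.norm_eq_abs, Real.norm_eq_abs, sq_abs, sq_abs,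
      sq_abs, Real.sq_sqrt (hγ x), Real.sq_sqrt (hγ y)]
    ring
  simp_rw [h5]
  have h6 : ∀ x, ∑ y, ∑ j, ‖((Km A u)ᵀ * Jm A (ξ j) * Km A u) x y‖ ^ 2 =
      ∑ j, ∑ y, ‖((Km A u)ᵀ * Jm A (ξ j) * Km A u) x y‖ ^ 2 := fun x => sum_comm
  simp_rw [h6]
  rw [sum_comm]

theorem Bm_contract (hA : A.IsSymm) (hu : Loss u) (c : ι → ℂ) :
    ∑ x, ‖∑ y, Bm A u x y * c y‖ ^ 2 ≤ ∑ y, ‖c y‖ ^ 2 := by
  have hγ : ∀ x, 0 ≤ gam u x := fun x => (gam_pos hu x).le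
  refine le_trans (le_of_eq ?_) ((ward hA hu).contract hγ c)
  refine sum_congr rfl fun x _ => ?_
  have h1 : ∑ y, Bm A u x y * c y =
      (Real.sqrt (gam u x) : ℂ) * ∑ y, GM A u x y * (Real.sqrt (gam u y) * c y) := by
    rw [mul_sum]
    refine sum_congr rfl fun y _ => ?_
    rw [Bm, of_apply]
    ring
  rw [h1, norm_mul, mul_pow, Complex.norm_real, Real.norm_of_nonneg (Real.sqrt_nonneg _),
    Real.sq_sqrt (hγ x)]

theorem Bm_symm (hA : A.IsSymm) : (Bm A u)ᵀ = Bm A u := by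
  ext x y
  rw [transpose_apply, Bm, of_apply, of_apply, GM_symm hA u y x]
  ring

theorem hs_B_mul (hA : A.IsSymm) (hu : Loss u) (M : Matrix ι ι ℂ) :
    hs (Bm A u * M) ≤ hs M := by
  unfold hs
  rw [sum_comm, sum_comm (f := fun x y => ‖M x y‖ ^ 2)]
  refine sum_le_sum fun y _ => ?_
  have := Bm_contract hA hu (fun z => M z y)
  refine le_trans (le_of_eq ?_) this
  exact sum_congr rfl fun x _ => by rw [mul_apply]

theorem hs_mul_B (hA : A.IsSymm) (hu : Loss u) (M : Matrix ι ι ℂ) :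
    hs (M * Bm A u) ≤ hs M := by
  rw [← hs_transpose, transpose_mul, Bm_symm hA, ← hs_transpose M]
  exact hs_B_mul hA hu _

theorem hs_add4 (M1 M2 M3 M4 : Matrix ι ι ℂ) :
    hs (M1 + M2 + M3 + M4) ≤ 4 * (hs M1 + hs M2 + hs M3 + hs M4) := by
  unfold hs
  rw [← sum_add_distrib, ← sum_add_distrib, ← sum_add_distrib, mul_sum]
  refine sum_le_sum fun x _ => ?_
  rw [← sum_add_distrib, ← sum_add_distrib, ← sum_add_distrib, mul_sum]
  refine sum_le_sum fun y _ => ?_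
  have h1 : ‖(M1 + M2 + M3 + M4) x y‖ ≤ ‖M1 x y‖ + ‖M2 x y‖ + ‖M3 x y‖ + ‖M4 x y‖ := by
    simp only [Matrix.add_apply]
    refine (norm_add_le _ _).trans (add_le_add ((norm_add_le _ _).trans (add_le_add
      (norm_add_le _ _) le_rfl)) le_rfl)
  have h2 : ‖(M1 + M2 + M3 + M4) x y‖ ^ 2 ≤
      (‖M1 x y‖ + ‖M2 x y‖ + ‖M3 x y‖ + ‖M4 x y‖) ^ 2 := by gcongr
  refine h2.trans ?_
  nlinarith [sq_nonneg (‖M1 x y‖ - ‖M2 x y‖), sq_nonneg (‖M1 x y‖ - ‖M3 x y‖),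
    sq_nonneg (‖M1 x y‖ - ‖M4 x y‖), sq_nonneg (‖M2 x y‖ - ‖M3 x y‖),
    sq_nonneg (‖M2 x y‖ - ‖M4 x y‖), sq_nonneg (‖M3 x y‖ - ‖M4 x y‖)]

/-- START: if `K = T B + R` then the functional is bounded by Hilbert-Schmidt norms of local
matrices -/
theorem start_le (hA : A.IsSymm) (hu : Loss u) (ξ : κ → ι → ℝ) (T R : Matrix ι ι ℂ)
    (hK : Km A u = T * Bm A u + R) :
    DU A ξ u ≤ ∑ j, 4 * (hs (Tᵀ * Jm A (ξ j) * T) + hs (Tᵀ * Jm A (ξ j) * R) +
      hs (Rᵀ * Jm A (ξ j) * T) + hs (Rᵀ * Jm A (ξ j) * R)) := by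
  rw [DU_eq_hs hA hu]
  refine sum_le_sum fun j _ => ?_
  set J := Jm A (ξ j) with hJ
  set B := Bm A u with hB
  have h1 : (Km A u)ᵀ * J * Km A u = B * (Tᵀ * J * T) * B + B * (Tᵀ * J * R) +
      (Rᵀ * J * T) * B + Rᵀ * J * R := by
    rw [hK, transpose_add, transpose_mul, hB, Bm_symm hA, ← hB]
    noncomm_ring
  rw [h1]
  refine (hs_add4 _ _ _ _).trans ?_
  have e1 : hs (B * (Tᵀ * J * T) * B) ≤ hs (Tᵀ * J * T) :=
    (hs_mul_B hA hu _).trans (hs_B_mul hA hu _)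
  have e2 : hs (B * (Tᵀ * J * R)) ≤ hs (Tᵀ * J * R) := hs_B_mul hA hu _
  have e3 : hs ((Rᵀ * J * T) * B) ≤ hs (Rᵀ * J * T) := hs_mul_B hA hu _
  linarith

end Pool.Agent.Lib.MP_562b47_mp.AL
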