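import Mathlib

/-!
MP_562b47, d = 2, algebra of the trades (section 0, 1, 4, 6 of helper60's scheme): definitions.

Finite index type `ι` (torus, box, ...), `A` a real symmetric matrix (hopping + 4 - E), `u : ι → ℂ` the
potentials, `-Im u ≥ 0` the absorptions; `H = A + diag u`, `G = H⁻¹`.  Positions
`ξ : κ → ι → ℝ` (finitely many real coordinates), `ff ξ x y = |ξ x - ξ y|²`.
Everything that refers to a site `s` is defined from `ref u s` (the potential at `s` replaced by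
`-i`), hence is manifestly independent of the potential at `s`, and measurable in the others.
-/

open Matrix Finset

namespace Pool.Agent.Lib.MP_562b47_mp.AL

variable {ι κ : Type*} [Fintype ι] [DecidableEq ι] [Fintype κ]

/-- the Hamiltonian `A + diag u` -/
noncomputable def HM (A : Matrix ι ι ℝ) (u : ι → ℂ) : Matrix ι ι ℂ :=
  A.map (fun r : ℝ => (r : ℂ)) + diagonal u

/-- the Green function `(A + diag u)⁻¹` -/
noncomputable def GM (A : Matrix ι ι ℝ) (u : ι → ℂ) : Matrix ι ι ℂ := (HM A u)⁻¹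

/-- the absorption `-Im u` -/
def gam (u : ι → ℂ) (x : ι) : ℝ := -(u x).im

/-- every site absorbs -/
def Loss (u : ι → ℂ) : Prop := ∀ x, (u x).im < 0

/-- every site except possibly `s` absorbs -/
def LossOff (u : ι → ℂ) (s : ι) : Prop := ∀ x, x ≠ s → (u x).im < 0

/-- squared distance -/
def ff (ξ : κ → ι → ℝ) (x y : ι) : ℝ := ∑ j, (ξ j x - ξ j y) ^ 2

/-- the mean square displacement functional for a matrix `G` and weights `γ` -/
noncomputable def DD (γ : ι → ℝ) (ξ : κ → ι → ℝ) (G : Matrix ι ι ℂ) : ℝ :=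
  ∑ x, ∑ y, γ x * γ y * ff ξ x y * ‖G x y‖ ^ 2

/-- `N² D` of the paper: the functional at the potential `u` -/
noncomputable def DU (A : Matrix ι ι ℝ) (ξ : κ → ι → ℝ) (u : ι → ℂ) : ℝ :=
  DD (gam u) ξ (GM A u)

/-- the share of the site `s` -/
noncomputable def share (A : Matrix ι ι ℝ) (ξ : κ → ι → ℝ) (u : ι → ℂ) (s : ι) : ℝ :=
  2 * gam u s * ∑ x, gam u x * ff ξ x s * ‖GM A u x s‖ ^ 2

/-- the Ward identity for a complex symmetric matrix -/
def Ward (γ : ι → ℝ) (G : Matrix ι ι ℂ) : Prop :=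
  (∀ x y, G x y = G y x) ∧
    ∀ x y, G x y - (starRingEnd ℂ) (G x y) =
      2 * Complex.I * ∑ k, (γ k : ℂ) * G x k * (starRingEnd ℂ) (G k y)

/-- reference potential: `-i` at `s` -/
noncomputable def ref (u : ι → ℂ) (s : ι) : ι → ℂ := Function.update u s (-Complex.I)

/-- `a_x`: `G_xs = -a_x / (u_s - z)`, in particular `a_s = -1` -/
noncomputable def aa (A : Matrix ι ι ℝ) (u : ι → ℂ) (s x : ι) : ℂ :=
  -(GM A (ref u s) x s) / GM A (ref u s) s s

/-- `z`: `G_ss = 1 / (u_s - z)` -/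
noncomputable def zz (A : Matrix ι ι ℝ) (u : ι → ℂ) (s : ι) : ℂ :=
  -Complex.I - (GM A (ref u s) s s)⁻¹

/-- the Green function with the site `s` removed (zero in the row and the column of `s`) -/
noncomputable def A0 (A : Matrix ι ι ℝ) (u : ι → ℂ) (s : ι) : Matrix ι ι ℂ :=
  fun x y => GM A (ref u s) x y - GM A (ref u s) x s * GM A (ref u s) s y / GM A (ref u s) s s

/-- `X_s = ∑ γ_x f_xs |a_x|²` -/
noncomputable def XX (A : Matrix ι ι ℝ) (ξ : κ → ι → ℝ) (u : ι → ℂ) (s : ι) : ℝ :=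
  ∑ x, gam (ref u s) x * ff ξ x s * ‖aa A u s x‖ ^ 2

/-- `P = ∑ γ_x f_xs a_x²` -/
noncomputable def PA (A : Matrix ι ι ℝ) (ξ : κ → ι → ℝ) (u : ι → ℂ) (s : ι) : ℂ :=
  ∑ x, (gam (ref u s) x : ℂ) * (ff ξ x s : ℂ) * aa A u s x ^ 2

/-- `J_j = ∑ γ_x |a_x|² (ξ_x - ξ_s)_j` -/
noncomputable def JA (A : Matrix ι ι ℝ) (ξ : κ → ι → ℝ) (u : ι → ℂ) (s : ι) (j : κ) : ℝ :=
  ∑ x, gam (ref u s) x * ‖aa A u s x‖ ^ 2 * (ξ j x - ξ j s)

/-- `|J|²` -/
noncomputable def JJ (A : Matrix ι ι ℝ) (ξ : κ → ι → ℝ) (u : ι → ℂ) (s : ι) : ℝ :=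
  ∑ j, JA A ξ u s j ^ 2

/-- `Kt = ∑ γ_x γ_y 2⟨ξ_x - ξ_s, ξ_y - ξ_s⟩ conj(A_xy) a_x a_y` -/
noncomputable def KA (A : Matrix ι ι ℝ) (ξ : κ → ι → ℝ) (u : ι → ℂ) (s : ι) : ℂ :=
  ∑ x, ∑ y, (gam (ref u s) x : ℂ) * (gam (ref u s) y : ℂ) *
    ((2 * ∑ j, (ξ j x - ξ j s) * (ξ j y - ξ j s) : ℝ) : ℂ) *
    ((starRingEnd ℂ) (A0 A u s x y) * aa A u s x * aa A u s y)

/-- the constant term of the one site formula -/
noncomputable def CA (A : Matrix ι ι ℝ) (ξ : κ → ι → ℝ) (u : ι → ℂ) (s : ι) : ℝ :=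
  DD (gam (ref u s)) ξ (A0 A u s)

/-- the partial derivative of `DU` with respect to the absorption at `s`, at potential `v` -/
noncomputable def dD (A : Matrix ι ι ℝ) (ξ : κ → ι → ℝ) (u : ι → ℂ) (s : ι) (v : ℂ) : ℝ :=
  -2 * (Complex.I * (Complex.I * PA A ξ u s + KA A ξ u s) / (v - zz A u s) ^ 2).re
    - 4 * JJ A ξ u s * (v - zz A u s).im / ‖v - zz A u s‖ ^ 4

end Pool.Agent.Lib.MP_562b47_mp.AL
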