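import Pool.Agent.Lib.MP_562b47_mp.AL.OneSite

/-!
MP_562b47, algebra of the trades: regularity of the Green function in the potentials (real
differentiability and continuity at lossy potentials, measurability everywhere) and the a priori
bounds `γ_x γ_y |G_xy|² ≤ 1`, `DU ≤ ∑ f`.
-/

open Matrix Finset MeasureTheory

set_option linter.unusedSectionVars false

namespace Pool.Agent.Lib.MP_562b47_mp.AL

variable {ι κ : Type*} [Fintype ι] [DecidableEq ι] [Fintype κ]
variable {A : Matrix ι ι ℝ} {u : ι → ℂ} {s : ι}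

/-! ### a priori bounds -/

theorem gam_pos (hu : Loss u) (x : ι) : 0 < gam u x := by
  have := hu x
  unfold gam; linarith

/-- `∑_x γ_x |G_xy|² γ_y ≤ 1` -/
theorem col_le (hA : A.IsSymm) (hu : Loss u) (y : ι) :
    gam u y * ∑ x, gam u x * ‖GM A u x y‖ ^ 2 ≤ 1 := by
  have hγ : ∀ x, 0 ≤ gam u x := fun x => (gam_pos hu x).le
  have h := (ward hA hu).contract hγ (Pi.single y 1)
  have h1 : ∀ x, ∑ z, GM A u x z * ((Real.sqrt (gam u z) : ℂ) * (Pi.single y (1 : ℂ) : ι → ℂ) z) =
      GM A u x y * Real.sqrt (gam u y) := by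
    intro x
    rw [Finset.sum_eq_single y]
    · simp
    · intro b _ hb
      simp [Pi.single_eq_of_ne hb]
    · simp
  simp_rw [h1] at h
  have h2 : ∑ z, ‖(Pi.single y (1 : ℂ) : ι → ℂ) z‖ ^ 2 = 1 := by
    rw [Finset.sum_eq_single y]
    · simp
    · intro b _ hb
      simp [Pi.single_eq_of_ne hb]
    · simp
  rw [h2] at h
  refine le_trans (le_of_eq ?_) h
  rw [mul_sum]
  refine sum_congr rfl fun x _ => ?_
  rw [norm_mul, mul_pow, Complex.norm_real, Real.norm_of_nonneg (Real.sqrt_nonneg _),
    Real.sq_sqrt (hγ y)]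
  ring

theorem entry_le (hA : A.IsSymm) (hu : Loss u) (x y : ι) :
    gam u x * gam u y * ‖GM A u x y‖ ^ 2 ≤ 1 := by
  refine le_trans ?_ (col_le hA hu y)
  rw [mul_sum]
  have := single_le_sum (f := fun x => gam u y * (gam u x * ‖GM A u x y‖ ^ 2))
    (fun x _ => mul_nonneg (gam_pos hu y).le (mul_nonneg (gam_pos hu x).le (by positivity)))
    (mem_univ x)
  refine le_trans (le_of_eq ?_) this
  ring

theorem DU_le (hA : A.IsSymm) (hu : Loss u) (ξ : κ → ι → ℝ) :
    DU A ξ u ≤ ∑ x, ∑ y, ff ξ x y := by
  refine sum_le_sum fun x _ => sum_le_sum fun y _ => ?_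
  have h := entry_le hA hu x y
  have hf := ff_nonneg ξ x y
  calc gam u x * gam u y * ff ξ x y * ‖GM A u x y‖ ^ 2
      = ff ξ x y * (gam u x * gam u y * ‖GM A u x y‖ ^ 2) := by ring
    _ ≤ ff ξ x y * 1 := by gcongr
    _ = ff ξ x y := mul_one _

theorem GM_entry (A : Matrix ι ι ℝ) (u : ι → ℂ) (x y : ι) : GM A u x y =
    (HM A u).det⁻¹ * ((HM A u).updateRow y (Pi.single x 1)).det := by
  rw [GM, Matrix.inv_def, Matrix.smul_apply, smul_eq_mul, Ring.inverse_eq_inv', adjugate_apply]

/-! ### measurability -/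

theorem measurable_det {Ω : Type*} [MeasurableSpace Ω] {n : Type*} [Fintype n] [DecidableEq n]
    {M : Ω → Matrix n n ℂ} (hM : ∀ x y, Measurable fun ω => M ω x y) :
    Measurable fun ω => (M ω).det := by
  simp_rw [det_apply]
  refine Finset.measurable_fun_sum _ fun σ _ => ?_
  refine Measurable.const_smul ?_ _
  exact Finset.measurable_fun_prod _ fun i _ => hM _ _

theorem measurable_GM' {Ω : Type*} [MeasurableSpace Ω] (A : Matrix ι ι ℝ) {u : Ω → ι → ℂ}
    (hu : ∀ x, Measurable fun ω => u ω x) (x y : ι) : Measurable fun ω => GM A (u ω) x y := by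
  have hH : ∀ p q, Measurable fun ω => HM A (u ω) p q := fun p q => by
    simp_rw [HM_apply]
    refine measurable_const.add ?_
    by_cases h : p = q
    · simpa [h] using hu q
    · simp [h]
  simp_rw [GM_entry]
  refine (measurable_det hH).inv.mul (measurable_det fun p q => ?_)
  by_cases h : p = y
  · subst h
    simp only [updateRow_self]
    exact measurable_const
  · simp only [updateRow_ne h]
    exact hH p q

theorem measurable_gam {Ω : Type*} [MeasurableSpace Ω] {u : Ω → ι → ℂ}
    (hu : ∀ x, Measurable fun ω => u ω x) (x : ι) : Measurable fun ω => gam (u ω) x :=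
  (Complex.measurable_im.comp (hu x)).neg

theorem measurable_DU {Ω : Type*} [MeasurableSpace Ω] (A : Matrix ι ι ℝ) (ξ : κ → ι → ℝ)
    {u : Ω → ι → ℂ} (hu : ∀ x, Measurable fun ω => u ω x) : Measurable fun ω => DU A ξ (u ω) := by
  unfold DU DD
  refine Finset.measurable_fun_sum _ fun x _ => Finset.measurable_fun_sum _ fun y _ => ?_
  exact (((measurable_gam hu x).mul (measurable_gam hu y)).mul measurable_const).mul
    ((measurable_GM' A hu x y).norm.pow_const 2)

theorem measurable_share {Ω : Type*} [MeasurableSpace Ω] (A : Matrix ι ι ℝ) (ξ : κ → ι → ℝ)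
    {u : Ω → ι → ℂ} (hu : ∀ x, Measurable fun ω => u ω x) (s : ι) :
    Measurable fun ω => share A ξ (u ω) s := by
  unfold share
  refine (measurable_const.mul (measurable_gam hu s)).mul ?_
  refine Finset.measurable_fun_sum _ fun x _ => ?_
  exact ((measurable_gam hu x).mul measurable_const).mul
    ((measurable_GM' A hu x s).norm.pow_const 2)

theorem measurable_ref {Ω : Type*} [MeasurableSpace Ω] {u : Ω → ι → ℂ}
    (hu : ∀ x, Measurable fun ω => u ω x) (s x : ι) : Measurable fun ω => ref (u ω) s x := by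
  by_cases h : x = s
  · subst h; simp [ref]
  · simpa [ref, Function.update_of_ne h] using hu x

theorem measurable_zz {Ω : Type*} [MeasurableSpace Ω] (A : Matrix ι ι ℝ)
    {u : Ω → ι → ℂ} (hu : ∀ x, Measurable fun ω => u ω x) (s : ι) :
    Measurable fun ω => zz A (u ω) s :=
  measurable_const.sub (measurable_GM' A (measurable_ref hu s) s s).inv

theorem measurable_aa {Ω : Type*} [MeasurableSpace Ω] (A : Matrix ι ι ℝ)
    {u : Ω → ι → ℂ} (hu : ∀ x, Measurable fun ω => u ω x) (s x : ι) :
    Measurable fun ω => aa A (u ω) s x :=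
  (measurable_GM' A (measurable_ref hu s) x s).neg.div (measurable_GM' A (measurable_ref hu s) s s)

theorem measurable_XX {Ω : Type*} [MeasurableSpace Ω] (A : Matrix ι ι ℝ) (ξ : κ → ι → ℝ)
    {u : Ω → ι → ℂ} (hu : ∀ x, Measurable fun ω => u ω x) (s : ι) :
    Measurable fun ω => XX A ξ (u ω) s := by
  unfold XX
  refine Finset.measurable_fun_sum _ fun x _ => ?_
  exact ((measurable_gam (measurable_ref hu s) x).mul measurable_const).mul
    ((measurable_aa A hu s x).norm.pow_const 2)

/-! ### differentiability -/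

section diff

variable {E : Type*} [NormedAddCommGroup E] [NormedSpace ℝ E]

theorem differentiableAt_det {n : Type*} [Fintype n] [DecidableEq n]
    {M : E → Matrix n n ℂ} {e : E} (hM : ∀ x y, DifferentiableAt ℝ (fun ω => M ω x y) e) :
    DifferentiableAt ℝ (fun ω => (M ω).det) e := by
  simp_rw [det_apply]
  refine DifferentiableAt.fun_sum fun σ _ => ?_
  have : DifferentiableAt ℝ (fun ω => ∏ i, M ω (σ i) i) e := by
    have h := HasFDerivAt.finsetProd (𝕜 := ℝ) (u := (univ : Finset n))
      (g := fun i ω => M ω (σ i) i) (g' := fun i => fderiv ℝ (fun ω => M ω (σ i) i) e) (x := e)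
      (fun i _ => (hM (σ i) i).hasFDerivAt)
    exact h.differentiableAt
  exact this.const_smul _

theorem differentiableAt_GM (hA : A.IsSymm) {u : E → ι → ℂ} {e : E}
    (hu : ∀ x, DifferentiableAt ℝ (fun ω => u ω x) e) (hL : Loss (u e)) (x y : ι) :
    DifferentiableAt ℝ (fun ω => GM A (u ω) x y) e := by
  have hH : ∀ p q, DifferentiableAt ℝ (fun ω => HM A (u ω) p q) e := fun p q => by
    simp_rw [HM_apply]
    by_cases h : p = q
    · simpa [h] using (differentiableAt_const (A q q : ℂ)).add (hu q)
    · simp [h]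
  simp_rw [GM_entry]
  refine DifferentiableAt.mul ?_ (differentiableAt_det fun p q => ?_)
  · exact (differentiableAt_det hH).inv (HM_det hA hL).ne_zero
  · by_cases h : p = y
    · subst h
      simp only [updateRow_self]
      exact differentiableAt_const _
    · simp only [updateRow_ne h]
      exact hH p q

theorem differentiableAt_DU (hA : A.IsSymm) (ξ : κ → ι → ℝ) {u : E → ι → ℂ} {e : E}
    (hu : ∀ x, DifferentiableAt ℝ (fun ω => u ω x) e) (hL : Loss (u e)) :
    DifferentiableAt ℝ (fun ω => DU A ξ (u ω)) e := by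
  unfold DU DD
  have hg : ∀ x, DifferentiableAt ℝ (fun ω => gam (u ω) x) e := fun x => by
    unfold gam
    exact ((Complex.imCLM.differentiableAt).comp e (hu x)).neg
  refine DifferentiableAt.fun_sum fun x _ => DifferentiableAt.fun_sum fun y _ => ?_
  refine (((hg x).mul (hg y)).mul (differentiableAt_const _)).mul ?_
  have h := differentiableAt_GM hA hu hL x y
  have h2 : (fun ω => ‖GM A (u ω) x y‖ ^ 2) =
      fun ω => (GM A (u ω) x y).re ^ 2 + (GM A (u ω) x y).im ^ 2 := by
    funext ω
    rw [← Complex.normSq_eq_norm_sq, Complex.normSq_apply]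
    ring
  rw [h2]
  exact (((Complex.reCLM.differentiableAt).comp e h).pow 2).add
    (((Complex.imCLM.differentiableAt).comp e h).pow 2)

end diff

/-- continuity at lossy potentials -/
theorem continuousAt_DU (hA : A.IsSymm) (ξ : κ → ι → ℝ) (hu : Loss u) :
    ContinuousAt (fun w : ι → ℂ => DU A ξ w) u :=
  (differentiableAt_DU (E := ι → ℂ) hA ξ (u := fun w => w) (e := u)
    (fun x => differentiableAt_apply x u) hu).continuousAt

theorem continuousAt_GM (hA : A.IsSymm) (hu : Loss u) (x y : ι) :
    ContinuousAt (fun w : ι → ℂ => GM A w x y) u :=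
  (differentiableAt_GM (E := ι → ℂ) hA (u := fun w => w) (e := u)
    (fun x => differentiableAt_apply x u) hu x y).continuousAt

end Pool.Agent.Lib.MP_562b47_mp.AL
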