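import Pool.Agent.Lib.MP_562b47_mp.AL.Trade
import Pool.Agent.Lib.MP_562b47_mp.AL.Reg

/-!
MP_562b47, algebra of the trades: the derivative of the functional with respect to the absorptions.
-/

open Matrix Finset MeasureTheory

set_option linter.unusedSectionVars false

namespace Pool.Agent.Lib.MP_562b47_mp.AL

variable {ι κ : Type*} [Fintype ι] [DecidableEq ι] [Fintype κ]
variable {A : Matrix ι ι ℝ} {u : ι → ℂ} {s : ι}

theorem dD_update (ξ : κ → ι → ℝ) (w v : ℂ) :
    dD A ξ (Function.update u s w) s v = dD A ξ u s v := by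
  simp [dD, PA_update, KA_update, JJ_update, zz_update]

/-- `γ_s |∂D/∂γ_s| ≤ 5 share_s` -/
theorem dD_le_share (hA : A.IsSymm) (ξ : κ → ι → ℝ) (hu : Loss u) (s : ι) :
    gam u s * |dD A ξ u s (u s)| ≤ 5 * share A ξ u s := by
  have hu' := hu.off s
  have hg := gam_pos hu s
  have hne : u s ≠ zz A u s := ne_zz hA hu' (hu s)
  have hsh := share_eq (A := A) hA hu' ξ (v := u s) hne
  rw [Function.update_eq_self] at hsh
  rw [hsh]
  have hX := XX_nonneg (A := A) hu' ξ
  set w := u s - zz A u s with hw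
  have hw0 : w ≠ 0 := sub_ne_zero.mpr hne
  have hn : 0 < ‖w‖ := norm_pos_iff.mpr hw0
  have hwim : w.im = -(gam u s + (zz A u s).im) := by
    rw [hw, Complex.sub_im, gam]; ring
  have hz := zz_im_nonneg hA hu'
  have h1 : |dD A ξ u s (u s)| ≤ 10 * (XX A ξ u s / ‖w‖ ^ 2) := by
    have h2 : dD A ξ u s (u s) =
        -2 * (Complex.I * (Complex.I * PA A ξ u s + KA A ξ u s) / w ^ 2).re
        - 4 * JJ A ξ u s * w.im / ‖w‖ ^ 4 := rfl
    rw [h2]
    refine (abs_sub _ _).trans ?_
    have h3 : |-2 * (Complex.I * (Complex.I * PA A ξ u s + KA A ξ u s) / w ^ 2).re| ≤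
        6 * (XX A ξ u s / ‖w‖ ^ 2) := by
      rw [abs_mul]
      have h4 := Complex.abs_re_le_norm (Complex.I * (Complex.I * PA A ξ u s + KA A ξ u s) / w ^ 2)
      rw [norm_div, norm_mul, Complex.norm_I, one_mul, norm_pow] at h4
      have h5 := PK_le hA hu' ξ
      have h6 : ‖Complex.I * PA A ξ u s + KA A ξ u s‖ / ‖w‖ ^ 2 ≤ 3 * XX A ξ u s / ‖w‖ ^ 2 := by
        gcongr
      have h7 : |(-2 : ℝ)| = 2 := by norm_num
      rw [h7]
      calc 2 * |(Complex.I * (Complex.I * PA A ξ u s + KA A ξ u s) / w ^ 2).re|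
          ≤ 2 * (3 * XX A ξ u s / ‖w‖ ^ 2) := by linarith
        _ = 6 * (XX A ξ u s / ‖w‖ ^ 2) := by ring
    have h8 : |4 * JJ A ξ u s * w.im / ‖w‖ ^ 4| ≤ 4 * (XX A ξ u s / ‖w‖ ^ 2) := by
      have hJ0 := JJ_nonneg (A := A) (u := u) (s := s) ξ
      have hJ := JJ_le hA hu' ξ
      rw [abs_div, abs_mul, abs_of_nonneg (by positivity : 0 ≤ 4 * JJ A ξ u s),
        abs_of_nonneg (by positivity : 0 ≤ ‖w‖ ^ 4)]
      have h9 : |w.im| ≤ ‖w‖ := Complex.abs_im_le_norm w
      have h10 : (zz A u s).im ≤ ‖w‖ := by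
        have : (zz A u s).im ≤ |w.im| := by
          rw [hwim, abs_neg, abs_of_nonneg (by linarith)]
          linarith
        linarith
      rw [div_le_iff₀ (by positivity)]
      calc 4 * JJ A ξ u s * |w.im| ≤ 4 * ((zz A u s).im * XX A ξ u s) * ‖w‖ := by gcongr
        _ ≤ 4 * (‖w‖ * XX A ξ u s) * ‖w‖ := by gcongr
        _ = 4 * (XX A ξ u s / ‖w‖ ^ 2) * ‖w‖ ^ 4 := by field_simp
    linarith
  have h11 : -(u s).im = gam u s := rfl
  rw [h11]
  calc gam u s * |dD A ξ u s (u s)| ≤ gam u s * (10 * (XX A ξ u s / ‖w‖ ^ 2)) := by gcongr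
    _ = 5 * (2 * gam u s * (XX A ξ u s / ‖w‖ ^ 2)) := by ring

/-- derivative with respect to the absorption at `s` -/
theorem hasDerivAt_DU_site (hA : A.IsSymm) (hu : LossOff u s) (ξ : κ → ι → ℝ) (c : ℂ) (t : ℝ)
    (ht : c.im - t < 0) :
    HasDerivAt (fun t : ℝ => DU A ξ (Function.update u s (c - t * Complex.I)))
      (dD A ξ u s (c - t * Complex.I)) t := by
  set p := Complex.I * PA A ξ u s + KA A ξ u s with hp
  have hne : ∀ t : ℝ, c.im - t < 0 → c - t * Complex.I ≠ zz A u s := fun t ht =>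
    ne_zz hA hu (by simpa using ht)
  have hev : (fun t : ℝ => DU A ξ (Function.update u s (c - t * Complex.I))) =ᶠ[nhds t]
      fun t : ℝ => CA A ξ u s - 2 * (p / (c - t * Complex.I - zz A u s)).re -
        2 * JJ A ξ u s / ‖c - t * Complex.I - zz A u s‖ ^ 2 := by
    have : ∀ᶠ t' in nhds t, c.im - t' < 0 :=
      (continuous_const.sub continuous_id).continuousAt.eventually_lt
        (continuousAt_const (y := (0 : ℝ))) ht
    filter_upwards [this] with t' ht'
    rw [DU_formula hA hu ξ (hne t' ht')]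
  refine HasDerivAt.congr_of_eventuallyEq ?_ hev
  set w : ℝ → ℂ := fun t => c - t * Complex.I - zz A u s with hwdef
  have hw0 : w t ≠ 0 := sub_ne_zero.mpr (hne t ht)
  have hn : ‖w t‖ ≠ 0 := norm_ne_zero_iff.mpr hw0
  have hw : HasDerivAt w (-Complex.I) t := by
    have h1 : HasDerivAt (fun t : ℝ => (t : ℂ) * Complex.I) (1 * Complex.I) t :=
      (HasDerivAt.ofReal_comp (hasDerivAt_id t)).mul_const Complex.I
    have h2 := ((hasDerivAt_const t c).sub h1).sub_const (zz A u s)
    refine h2.congr_deriv ?_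
    ring
  have h1 : HasDerivAt (fun t => p / w t) (Complex.I * p / (w t) ^ 2) t := by
    have := (hasDerivAt_const t p).div hw hw0
    refine this.congr_deriv ?_
    ring
  have h2 : HasDerivAt (fun t => (p / w t).re) (Complex.I * p / (w t) ^ 2).re t := by
    have := (Complex.reCLM.hasFDerivAt (x := p / w t)).comp_hasDerivAt t h1
    exact this
  have hre : HasDerivAt (fun t => (w t).re) (0 : ℝ) t := by
    have h0 := (Complex.reCLM.hasFDerivAt (x := w t)).comp_hasDerivAt t hw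
    have h00 : (Complex.reCLM : ℂ →L[ℝ] ℝ) (-Complex.I) = 0 := by simp
    rw [h00] at h0
    exact h0
  have him : HasDerivAt (fun t => (w t).im) (-1 : ℝ) t := by
    have h0 := (Complex.imCLM.hasFDerivAt (x := w t)).comp_hasDerivAt t hw
    have h00 : (Complex.imCLM : ℂ →L[ℝ] ℝ) (-Complex.I) = -1 := by simp
    rw [h00] at h0
    exact h0
  have hnsq : ∀ t, ‖w t‖ ^ 2 = (w t).re ^ 2 + (w t).im ^ 2 := fun t => by
    rw [← Complex.normSq_eq_norm_sq, Complex.normSq_apply]
    ring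
  have h3 : HasDerivAt (fun t => ‖w t‖ ^ 2) (-2 * (w t).im) t := by
    have h4 := (hre.pow 2).add (him.pow 2)
    have h5 : (fun t => ‖w t‖ ^ 2) = fun t => (w t).re ^ 2 + (w t).im ^ 2 := funext hnsq
    rw [h5]
    refine h4.congr_deriv ?_
    simp
  have h6 : HasDerivAt (fun t => 2 * JJ A ξ u s / ‖w t‖ ^ 2)
      (4 * JJ A ξ u s * (w t).im / ‖w t‖ ^ 4) t := by
    have := (hasDerivAt_const t (2 * JJ A ξ u s)).div h3 (by positivity)
    refine this.congr_deriv ?_
    field_simp
    ring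
  have h7 := ((hasDerivAt_const t (CA A ξ u s)).sub (h2.const_mul 2)).sub h6
  refine h7.congr_deriv ?_
  rw [dD]
  ring

/-- the derivative averaged over the potential at `s` (any finite measure) -/
theorem integrable_dD (hA : A.IsSymm) (hu : LossOff u s) (ξ : κ → ι → ℝ) (ζ : ℝ) {a : ℝ}
    (ha : 0 < a) (μ : Measure ℝ) [IsFiniteMeasure μ] :
    Integrable (fun v : ℝ => dD A ξ u s (ζ + v - a * Complex.I)) μ := by
  have hy := yy_im_pos hA hu ζ ha
  set y := yy A u s ζ a with hyd
  have h2 : ∀ v : ℝ, ((ζ : ℂ) + v - a * Complex.I) - zz A u s = (v : ℂ) - y := fun v => by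
    rw [hyd, yy]; ring
  have hne : ∀ v : ℝ, ((v : ℂ) - y) ≠ 0 := fun v => sub_ne hy v
  have hc : Continuous fun v : ℝ => dD A ξ u s (ζ + v - a * Complex.I) := by
    unfold dD
    simp_rw [h2]
    have hcv : Continuous fun v : ℝ => (v : ℂ) - y :=
      Complex.continuous_ofReal.sub continuous_const
    refine (continuous_const.mul (Complex.continuous_re.comp (continuous_const.div (hcv.pow 2)
      fun v => pow_ne_zero 2 (hne v)))).sub ?_
    refine (continuous_const.mul (Complex.continuous_im.comp hcv)).div (hcv.norm.pow 4) fun v => ?_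
    have := norm_ne_zero_iff.mpr (hne v)
    positivity
  refine Integrable.of_bound hc.aestronglyMeasurable (5 * (∑ x, ∑ y, ff ξ x y) * 2 / a)
    (Filter.Eventually.of_forall fun v => ?_)
  set u' := Function.update u s ((ζ : ℂ) + v - a * Complex.I) with hu'
  have hL : Loss u' := loss_update hu (by simpa using ha)
  have h3 := dD_le_share hA ξ hL s
  have h4 : u' s = (ζ : ℂ) + v - a * Complex.I := by simp [hu']
  have h5 : gam u' s = a := by rw [gam, h4]; simp
  rw [h4, h5, hu', dD_update] at h3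
  have h6 : share A ξ u' s ≤ 2 * DU A ξ u' := by
    rw [← sum_share]
    exact single_le_sum (fun x _ => share_nonneg ξ hL x) (mem_univ s)
  have h7 := DU_le hA hL ξ
  rw [Real.norm_eq_abs, le_div_iff₀ ha]
  rw [← hu'] at h3
  nlinarith

theorem neg_integral_dD_le (hA : A.IsSymm) (hu : LossOff u s) (ξ : κ → ι → ℝ) (ζ : ℝ) {a : ℝ}
    (ha : 0 < a) (μ : Measure ℝ) [IsFiniteMeasure μ] :
    -(∫ v : ℝ, dD A ξ u s (ζ + v - a * Complex.I) ∂μ) ≤
      6 * XX A ξ u s * ‖∫ v : ℝ, 1 / ((v : ℂ) - yy A u s ζ a) ^ 2 ∂μ‖ := by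
  have hy := yy_im_pos hA hu ζ ha
  have hint := integrable_dD hA hu ξ ζ ha μ
  set y := yy A u s ζ a with hyd
  set p := Complex.I * PA A ξ u s + KA A ξ u s with hp
  have h2 : ∀ v : ℝ, ((ζ : ℂ) + v - a * Complex.I) - zz A u s = (v : ℂ) - y := fun v => by
    rw [hyd, yy]; ring
  have hne : ∀ v : ℝ, ((v : ℂ) - y) ≠ 0 := fun v => sub_ne hy v
  have hcv : Continuous fun v : ℝ => (v : ℂ) - y :=
    Complex.continuous_ofReal.sub continuous_const
  have i1 : Integrable (fun v : ℝ => 1 / ((v : ℂ) - y) ^ 2) μ := by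
    refine Integrable.of_bound (continuous_const.div (hcv.pow 2)
      fun v => pow_ne_zero 2 (hne v)).aestronglyMeasurable ((1 / y.im) ^ 2)
      (Filter.Eventually.of_forall fun v => ?_)
    have h := norm_one_div_sub_le hy v
    calc ‖1 / ((v : ℂ) - y) ^ 2‖ = ‖1 / ((v : ℂ) - y)‖ ^ 2 := by
          rw [norm_div, norm_div, norm_pow, norm_one, div_pow, one_pow]
      _ ≤ _ := by gcongr
  have i2 : Integrable (fun v : ℝ => (Complex.I * p * (1 / ((v : ℂ) - y) ^ 2)).re) μ :=
    (i1.const_mul (Complex.I * p)).re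
  have hpt : ∀ v : ℝ, -2 * (Complex.I * p * (1 / ((v : ℂ) - y) ^ 2)).re ≤
      dD A ξ u s (ζ + v - a * Complex.I) := by
    intro v
    rw [dD, h2 v]
    have h3 : ((v : ℂ) - y).im = -y.im := by simp
    rw [h3]
    have h4 : 0 ≤ JJ A ξ u s := JJ_nonneg ξ
    have h5 : Complex.I * p * (1 / ((v : ℂ) - y) ^ 2) = Complex.I * p / ((v : ℂ) - y) ^ 2 := by
      ring
    rw [h5]
    have h6 : 0 ≤ -(4 * JJ A ξ u s * -y.im / ‖(v : ℂ) - y‖ ^ 4) := by
      rw [← neg_div]
      have : -(4 * JJ A ξ u s * -y.im) = 4 * JJ A ξ u s * y.im := by ring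
      rw [this]
      positivity
    linarith
  have h7 : -2 * ∫ v : ℝ, (Complex.I * p * (1 / ((v : ℂ) - y) ^ 2)).re ∂μ ≤
      ∫ v : ℝ, dD A ξ u s (ζ + v - a * Complex.I) ∂μ := by
    rw [← integral_const_mul]
    exact integral_mono (i2.const_mul _) hint hpt
  have h8 : ∫ v : ℝ, (Complex.I * p * (1 / ((v : ℂ) - y) ^ 2)).re ∂μ =
      (Complex.I * p * ∫ v : ℝ, 1 / ((v : ℂ) - y) ^ 2 ∂μ).re := by
    have h := integral_re (𝕜 := ℂ) (i1.const_mul (Complex.I * p))
    rw [← integral_const_mul]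
    exact h
  rw [h8] at h7
  set m := ∫ v : ℝ, 1 / ((v : ℂ) - y) ^ 2 ∂μ with hm
  have h9 : (Complex.I * p * m).re ≤ 3 * XX A ξ u s * ‖m‖ := by
    refine (Complex.re_le_norm _).trans ?_
    rw [norm_mul, norm_mul, Complex.norm_I, one_mul]
    exact mul_le_mul_of_nonneg_right (PK_le hA hu ξ) (norm_nonneg _)
  linarith

/-- total derivative along a direction of absorptions -/
theorem hasDerivAt_DU_line (hA : A.IsSymm) (ξ : κ → ι → ℝ) (c : ι → ℂ) (m : ι → ℝ) (t : ℝ)
    (h : Loss fun x => c x - (t * m x : ℝ) * Complex.I) :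
    HasDerivAt (fun t : ℝ => DU A ξ fun x => c x - (t * m x : ℝ) * Complex.I)
      (∑ x, m x * dD A ξ (fun x => c x - (t * m x : ℝ) * Complex.I) x
        (c x - (t * m x : ℝ) * Complex.I)) t := by
  set u : ι → ℂ := fun x => c x - (t * m x : ℝ) * Complex.I with hu
  have hd : DifferentiableAt ℝ (fun w : ι → ℂ => DU A ξ w) u :=
    differentiableAt_DU (E := ι → ℂ) hA ξ (u := fun w => w) (e := u)
      (fun x => differentiableAt_apply x u) h
  set L := fderiv ℝ (fun w : ι → ℂ => DU A ξ w) u with hL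
  have hF : HasFDerivAt (fun w : ι → ℂ => DU A ξ w) L u := hd.hasFDerivAt
  -- partial derivatives
  have hpart : ∀ x, L (Pi.single x (-Complex.I)) = dD A ξ u x (u x) := by
    intro x
    have h1 : HasDerivAt (fun r : ℝ => Function.update u x (u x - r * Complex.I))
        (Pi.single x (-Complex.I)) 0 := by
      rw [hasDerivAt_pi]
      intro y
      by_cases hy : y = x
      · subst hy
        simp only [Function.update_self, Pi.single_eq_same]
        have h1 : HasDerivAt (fun t : ℝ => (t : ℂ) * Complex.I) (1 * Complex.I) 0 :=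
          (HasDerivAt.ofReal_comp (hasDerivAt_id (0:ℝ))).mul_const Complex.I
        have h2 := (hasDerivAt_const (0:ℝ) (u y)).sub h1
        refine h2.congr_deriv ?_
        ring
      · simp only [Function.update_of_ne hy, Pi.single_eq_of_ne hy]
        exact hasDerivAt_const _ _
    have h2 : Function.update u x (u x - ((0:ℝ) : ℂ) * Complex.I) = u := by simp
    have hF' : HasFDerivAt (fun w : ι → ℂ => DU A ξ w) L
        (Function.update u x (u x - ((0:ℝ) : ℂ) * Complex.I)) := by rw [h2]; exact hF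
    have h3 := hF'.comp_hasDerivAt (0:ℝ) h1
    have h4 := hasDerivAt_DU_site (u := u) (s := x) hA (h.off x) ξ (u x) 0 (by simpa using h x)
    have h5 := h3.unique h4
    rw [h5]
    simp
  have hline : HasDerivAt (fun t : ℝ => (fun x => c x - (t * m x : ℝ) * Complex.I : ι → ℂ))
      (fun x => -((m x : ℂ) * Complex.I)) t := by
    rw [hasDerivAt_pi]
    intro x
    have h1 : HasDerivAt (fun t : ℝ => ((t * m x : ℝ) : ℂ) * Complex.I)
        (((1 * m x : ℝ) : ℂ) * Complex.I) t :=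
      (HasDerivAt.ofReal_comp ((hasDerivAt_id t).mul_const (m x))).mul_const Complex.I
    have h2 := (hasDerivAt_const t (c x)).sub h1
    refine h2.congr_deriv ?_
    push_cast
    ring
  have h6 := hF.comp_hasDerivAt t hline
  have h7 : (fun x => -((m x : ℂ) * Complex.I) : ι → ℂ) =
      ∑ x, (m x) • (Pi.single x (-Complex.I) : ι → ℂ) := by
    funext y
    rw [Finset.sum_apply, Finset.sum_eq_single y]
    · simp
    · intro b _ hb
      simp [Pi.single_eq_of_ne (Ne.symm hb)]
    · simp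
  rw [h7, map_sum] at h6
  refine h6.congr_deriv ?_
  refine sum_congr rfl fun x _ => ?_
  rw [map_smul, hpart, smul_eq_mul]

/-- bound of the total derivative: if the absorptions are at least `t m` then it is at most
`(10/t) ∑ f` -/
theorem abs_sum_dD_le (hA : A.IsSymm) (ξ : κ → ι → ℝ) (hu : Loss u) (m : ι → ℝ) {t : ℝ}
    (ht : 0 < t) (hm : ∀ x, 0 ≤ m x) (hmt : ∀ x, t * m x ≤ gam u x) :
    |∑ x, m x * dD A ξ u x (u x)| ≤ 10 / t * DU A ξ u := by
  have h1 : ∀ x, |m x * dD A ξ u x (u x)| ≤ 5 / t * share A ξ u x := by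
    intro x
    rw [abs_mul, abs_of_nonneg (hm x), div_mul_eq_mul_div, le_div_iff₀ ht]
    have h2 := dD_le_share hA ξ hu x
    calc m x * |dD A ξ u x (u x)| * t = (t * m x) * |dD A ξ u x (u x)| := by ring
      _ ≤ gam u x * |dD A ξ u x (u x)| := by
          exact mul_le_mul_of_nonneg_right (hmt x) (abs_nonneg _)
      _ ≤ _ := h2
  calc |∑ x, m x * dD A ξ u x (u x)| ≤ ∑ x, |m x * dD A ξ u x (u x)| := abs_sum_le_sum_abs _ _
    _ ≤ ∑ x, 5 / t * share A ξ u x := sum_le_sum fun x _ => h1 x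
    _ = 10 / t * DU A ξ u := by rw [← mul_sum, sum_share]; ring

end Pool.Agent.Lib.MP_562b47_mp.AL
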