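import Pool.Agent.Lib.MP_562b47_mp.AL.Deriv

/-!
MP_562b47, algebra of the trades: the derivative of the averaged functional in the background
absorption (differentiation under the integral sign).
-/

open Matrix Finset MeasureTheory

set_option linter.unusedSectionVars false

namespace Pool.Agent.Lib.MP_562b47_mp.AL

variable {ι κ : Type*} [Fintype ι] [DecidableEq ι] [Fintype κ]
variable {A : Matrix ι ι ℝ} {u : ι → ℂ} {s : ι}
variable {Ω : Type*} [MeasurableSpace Ω]

theorem measurable_A0 (A : Matrix ι ι ℝ) {u : Ω → ι → ℂ} (hu : ∀ x, Measurable fun ω => u ω x)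
    (s x y : ι) : Measurable fun ω => A0 A (u ω) s x y :=
  (measurable_GM' A (measurable_ref hu s) x y).sub
    (((measurable_GM' A (measurable_ref hu s) x s).mul (measurable_GM' A (measurable_ref hu s) s y)).div
      (measurable_GM' A (measurable_ref hu s) s s))

theorem measurable_PA (A : Matrix ι ι ℝ) (ξ : κ → ι → ℝ) {u : Ω → ι → ℂ}
    (hu : ∀ x, Measurable fun ω => u ω x) (s : ι) : Measurable fun ω => PA A ξ (u ω) s := by
  unfold PA
  refine Finset.measurable_fun_sum _ fun x _ => ?_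
  exact ((Complex.measurable_ofReal.comp (measurable_gam (measurable_ref hu s) x)).mul
    measurable_const).mul ((measurable_aa A hu s x).pow_const 2)

theorem measurable_JJ (A : Matrix ι ι ℝ) (ξ : κ → ι → ℝ) {u : Ω → ι → ℂ}
    (hu : ∀ x, Measurable fun ω => u ω x) (s : ι) : Measurable fun ω => JJ A ξ (u ω) s := by
  unfold JJ JA
  refine Finset.measurable_fun_sum _ fun j _ => Measurable.pow_const ?_ 2
  refine Finset.measurable_fun_sum _ fun x _ => ?_
  exact ((measurable_gam (measurable_ref hu s) x).mul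
    ((measurable_aa A hu s x).norm.pow_const 2)).mul measurable_const

theorem measurable_conj {f : Ω → ℂ} (hf : Measurable f) :
    Measurable fun ω => (starRingEnd ℂ) (f ω) :=
  Complex.continuous_conj.measurable.comp hf

theorem measurable_KA (A : Matrix ι ι ℝ) (ξ : κ → ι → ℝ) {u : Ω → ι → ℂ}
    (hu : ∀ x, Measurable fun ω => u ω x) (s : ι) : Measurable fun ω => KA A ξ (u ω) s := by
  unfold KA
  refine Finset.measurable_fun_sum _ fun x _ => Finset.measurable_fun_sum _ fun y _ => ?_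
  exact (((Complex.measurable_ofReal.comp (measurable_gam (measurable_ref hu s) x)).mul
    (Complex.measurable_ofReal.comp (measurable_gam (measurable_ref hu s) y))).mul
    measurable_const).mul (((measurable_conj (measurable_A0 A hu s x y)).mul
      (measurable_aa A hu s x)).mul (measurable_aa A hu s y))

theorem measurable_dD (A : Matrix ι ι ℝ) (ξ : κ → ι → ℝ) {u : Ω → ι → ℂ}
    (hu : ∀ x, Measurable fun ω => u ω x) (s : ι) {v : Ω → ℂ} (hv : Measurable v) :
    Measurable fun ω => dD A ξ (u ω) s (v ω) := by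
  unfold dD
  have h1 := hv.sub (measurable_zz A hu s)
  refine (measurable_const.mul (Complex.measurable_re.comp ((measurable_const.mul
    ((measurable_const.mul (measurable_PA A ξ hu s)).add (measurable_KA A ξ hu s))).div
      (h1.pow_const 2)))).sub ?_
  exact ((measurable_const.mul (measurable_JJ A ξ hu s)).mul
    (Complex.measurable_im.comp h1)).div (h1.norm.pow_const 4)

/-- potentials with background absorption `t m` -/
noncomputable def bg (c : ι → ℂ) (m : ι → ℝ) (t : ℝ) (x : ι) : ℂ := c x - (t * m x : ℝ) * Complex.I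

theorem loss_bg {c : ι → ℂ} {m : ι → ℝ} (hm : ∀ x, 0 ≤ m x) (hc : ∀ x, (c x).im ≤ 0)
    (hL : ∀ x, (c x).im < 0 ∨ 0 < m x) {t : ℝ} (ht : 0 < t) : Loss (bg c m t) := by
  intro x
  have h1 : (bg c m t x).im = (c x).im - t * m x := by simp [bg]
  rw [h1]
  rcases hL x with h | h
  · have := mul_nonneg ht.le (hm x)
    linarith
  · have := mul_pos ht h
    linarith [hc x]

theorem gam_bg {c : ι → ℂ} {m : ι → ℝ} (t : ℝ) (x : ι) :
    gam (bg c m t) x = -(c x).im + t * m x := by
  simp [gam, bg]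
  ring

/-- the derivative of the averaged functional in the background -/
theorem hasDerivAt_integral_DU (hA : A.IsSymm) (ξ : κ → ι → ℝ) (μ : Measure Ω) [IsFiniteMeasure μ]
    (c : Ω → ι → ℂ) (m : Ω → ι → ℝ) (W : Ω → ℝ) (B : ℝ)
    (hc : ∀ x, Measurable fun ω => c ω x) (hm : ∀ x, Measurable fun ω => m ω x)
    (hW : Measurable W) (hB : ∀ ω, |W ω| ≤ B)
    (hm0 : ∀ ω x, 0 ≤ m ω x) (hc0 : ∀ ω x, (c ω x).im ≤ 0)
    (hL : ∀ ω x, (c ω x).im < 0 ∨ 0 < m ω x) {t : ℝ} (ht : 0 < t) :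
    Integrable (fun ω => W ω * ∑ x, m ω x * dD A ξ (bg (c ω) (m ω) t) x (bg (c ω) (m ω) t x)) μ ∧
    HasDerivAt (fun t => ∫ ω, W ω * DU A ξ (bg (c ω) (m ω) t) ∂μ)
      (∫ ω, W ω * ∑ x, m ω x * dD A ξ (bg (c ω) (m ω) t) x (bg (c ω) (m ω) t x) ∂μ) t := by
  have hbg : ∀ t x, Measurable fun ω => bg (c ω) (m ω) t x := fun t x => by
    unfold bg
    exact (hc x).sub ((Complex.measurable_ofReal.comp (measurable_const.mul (hm x))).mul
      measurable_const)
  have hF : ∀ t, AEStronglyMeasurable (fun ω => W ω * DU A ξ (bg (c ω) (m ω) t)) μ := fun t =>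
    (hW.mul (measurable_DU A ξ (hbg t))).aestronglyMeasurable
  have hloss : ∀ ω, ∀ t : ℝ, 0 < t → Loss (bg (c ω) (m ω) t) := fun ω t ht =>
    loss_bg (hm0 ω) (hc0 ω) (hL ω) ht
  have hbd : ∀ ω, ∀ t : ℝ, 0 < t → |DU A ξ (bg (c ω) (m ω) t)| ≤ ∑ x, ∑ y, ff ξ x y := by
    intro ω t ht
    rw [abs_of_nonneg (DU_nonneg ξ (hloss ω t ht))]
    exact DU_le hA (hloss ω t ht) ξ
  have hfs : 0 ≤ ∑ x, ∑ y, ff ξ x y :=
    sum_nonneg fun x _ => sum_nonneg fun y _ => ff_nonneg ξ x y
  refine hasDerivAt_integral_of_dominated_loc_of_deriv_le (s := Set.Ioi (t / 2))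
    (F' := fun t ω => W ω * ∑ x, m ω x * dD A ξ (bg (c ω) (m ω) t) x (bg (c ω) (m ω) t x))
    (bound := fun _ => B * (20 / t * ∑ x, ∑ y, ff ξ x y))
    (Ioi_mem_nhds (half_lt_self ht)) (Filter.Eventually.of_forall hF) ?_ ?_ ?_ (integrable_const _) ?_
  · refine Integrable.of_bound (hF t) (B * ∑ x, ∑ y, ff ξ x y)
      (Filter.Eventually.of_forall fun ω => ?_)
    rw [Real.norm_eq_abs, abs_mul]
    exact mul_le_mul (hB ω) (hbd ω t ht) (abs_nonneg _) ((abs_nonneg _).trans (hB ω))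
  · refine (hW.mul (Finset.measurable_fun_sum _ fun x _ => ?_)).aestronglyMeasurable
    exact (hm x).mul (measurable_dD A ξ (hbg t) x (hbg t x))
  · refine Filter.Eventually.of_forall fun ω r hr => ?_
    have hr' : t / 2 < r := hr
    have hr0 : 0 < r := by linarith
    have h1 := abs_sum_dD_le hA ξ (hloss ω r hr0) (m ω) hr0 (hm0 ω) (fun x => by
      rw [gam_bg]
      linarith [hc0 ω x])
    rw [Real.norm_eq_abs, abs_mul]
    refine mul_le_mul (hB ω) (h1.trans ?_) (abs_nonneg _) ((abs_nonneg _).trans (hB ω))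
    have h2 := hbd ω r hr0
    have h3 : 10 / r ≤ 20 / t := by
      rw [div_le_div_iff₀ hr0 ht]
      linarith
    calc 10 / r * DU A ξ (bg (c ω) (m ω) r) ≤ 10 / r * ∑ x, ∑ y, ff ξ x y := by
          gcongr
          exact (le_abs_self _).trans h2
      _ ≤ 20 / t * ∑ x, ∑ y, ff ξ x y := by gcongr
  · refine Filter.Eventually.of_forall fun ω r hr => ?_
    have hr' : t / 2 < r := hr
    have hr0 : 0 < r := by linarith
    exact (hasDerivAt_DU_line hA ξ (c ω) (m ω) r (hloss ω r hr0)).const_mul (W ω)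

/-- continuity of the averaged functional in the background -/
theorem continuousOn_integral_DU (hA : A.IsSymm) (ξ : κ → ι → ℝ) (μ : Measure Ω) [IsFiniteMeasure μ]
    (c : Ω → ι → ℂ) (m : Ω → ι → ℝ) (W : Ω → ℝ) (B : ℝ)
    (hc : ∀ x, Measurable fun ω => c ω x) (hm : ∀ x, Measurable fun ω => m ω x)
    (hW : Measurable W) (hB : ∀ ω, |W ω| ≤ B)
    (hm0 : ∀ ω x, 0 ≤ m ω x) (hc0 : ∀ ω x, (c ω x).im ≤ 0)
    (hL : ∀ ω x, (c ω x).im < 0 ∨ 0 < m ω x) :
    ContinuousOn (fun t => ∫ ω, W ω * DU A ξ (bg (c ω) (m ω) t) ∂μ) (Set.Ioi 0) := fun _ ht =>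
  (hasDerivAt_integral_DU hA ξ μ c m W B hc hm hW hB hm0 hc0 hL ht).2.continuousAt.continuousWithinAt

end Pool.Agent.Lib.MP_562b47_mp.AL
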