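import Pool.Agent.Lib.MP_562b47_mp.AL.Rank

/-!
MP_562b47, algebra of the trades: the one site formula (*) and the bounds of its coefficients.
-/

open Matrix Finset

set_option linter.unusedSectionVars false

namespace Pool.Agent.Lib.MP_562b47_mp.AL

variable {ι κ : Type*} [Fintype ι] [DecidableEq ι] [Fintype κ]
variable {A : Matrix ι ι ℝ} {u : ι → ℂ} {s : ι}

theorem ff_self (ξ : κ → ι → ℝ) (x : ι) : ff ξ x x = 0 := by simp [ff]

theorem ff_comm (ξ : κ → ι → ℝ) (x y : ι) : ff ξ x y = ff ξ y x := by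
  unfold ff; exact sum_congr rfl fun j _ => by ring

theorem ff_nonneg (ξ : κ → ι → ℝ) (x y : ι) : 0 ≤ ff ξ x y :=
  sum_nonneg fun _ _ => sq_nonneg _

theorem ff_eq (ξ : κ → ι → ℝ) (s x y : ι) : ff ξ x y =
    ff ξ x s + ff ξ y s - 2 * ∑ j, (ξ j x - ξ j s) * (ξ j y - ξ j s) := by
  unfold ff
  rw [mul_sum, ← sum_add_distrib, ← sum_sub_distrib]
  exact sum_congr rfl fun j _ => by ring

/-- the Ward identity for the Green function without `s` -/
theorem ward0 (hA : A.IsSymm) (hu : LossOff u s) : Ward (gam (ref u s)) (A0 A u s) := by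
  refine ⟨A0_symm hA, fun x y => ?_⟩
  set r := -Complex.I - zz A u s with hr
  have hG := Gref_ne hA hu
  have hr0 : r ≠ 0 := by
    rw [hr, zz]
    have : (-Complex.I - (-Complex.I - (GM A (ref u s) s s)⁻¹)) = (GM A (ref u s) s s)⁻¹ := by ring
    rw [this]
    exact inv_ne_zero hG
  have hr0' : (starRingEnd ℂ) r ≠ 0 := (map_ne_zero _).mpr hr0
  have hW := (ward hA (loss_ref hu)).2 x y
  have e2 : ∀ k, (gam (ref u s) k : ℂ) * GM A (ref u s) x k * (starRingEnd ℂ) (GM A (ref u s) k y) =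
      (gam (ref u s) k : ℂ) * A0 A u s x k * (starRingEnd ℂ) (A0 A u s k y) +
      (starRingEnd ℂ) (aa A u s y) * (1 / (starRingEnd ℂ) r) *
        (starRingEnd ℂ) ((gam (ref u s) k : ℂ) * (starRingEnd ℂ) (A0 A u s x k) * aa A u s k) +
      aa A u s x * (1 / r) *
        ((gam (ref u s) k : ℂ) * (starRingEnd ℂ) (A0 A u s y k) * aa A u s k) +
      aa A u s x * (starRingEnd ℂ) (aa A u s y) * (1 / r) * (1 / (starRingEnd ℂ) r) *
        ((gam (ref u s) k * ‖aa A u s k‖ ^ 2 : ℝ) : ℂ) := by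
    intro k
    rw [Gref_eq hA hu x k, Gref_eq hA hu k y, ← hr, A0_symm hA y k]
    have h3 : ((‖aa A u s k‖ ^ 2 : ℝ) : ℂ) = aa A u s k * (starRingEnd ℂ) (aa A u s k) := by
      rw [Complex.mul_conj, Complex.normSq_eq_norm_sq]
    rw [Complex.ofReal_mul, h3]
    simp only [map_add, map_mul, map_div₀, Complex.conj_conj, Complex.conj_ofReal]
    ring
  simp_rw [e2] at hW
  rw [sum_add_distrib, sum_add_distrib, sum_add_distrib, ← mul_sum, ← mul_sum, ← mul_sum,
    ← Complex.ofReal_sum, sum_aa hA hu, ← map_sum, Gref_eq hA hu x y, ← hr] at hW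
  have e3 : ((1 + (zz A u s).im : ℝ) : ℂ) = ((starRingEnd ℂ) r - r) / (2 * Complex.I) := by
    have h5 := Complex.sub_conj r
    have h6 : r.im = -(1 + (zz A u s).im) := by
      rw [hr]; simp; ring
    rw [h6] at h5
    rw [eq_div_iff (by simp)]
    push_cast at h5 ⊢
    linear_combination h5
  rw [e3] at hW
  have f1 := A0_aa hA hu x
  have f2 := A0_aa hA hu y
  have f1' := congrArg (starRingEnd ℂ) f1
  simp only [map_sub, map_mul, Complex.conj_conj, Complex.conj_I, map_ofNat] at f1'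
  set U := ∑ i, (gam (ref u s) i : ℂ) * (starRingEnd ℂ) (A0 A u s x i) * aa A u s i with hU
  set V := ∑ i, (gam (ref u s) i : ℂ) * (starRingEnd ℂ) (A0 A u s y i) * aa A u s i with hV
  set S := ∑ i, (gam (ref u s) i : ℂ) * A0 A u s x i * (starRingEnd ℂ) (A0 A u s i y) with hS
  simp only [map_add, map_mul, map_div₀] at hW
  have e9 : (1 / r) * (1 / (starRingEnd ℂ) r) * (((starRingEnd ℂ) r - r) / (2 * Complex.I)) *
      (2 * Complex.I) = 1 / r - 1 / (starRingEnd ℂ) r := by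
    field_simp
  linear_combination hW + (starRingEnd ℂ) (aa A u s y) * (1 / (starRingEnd ℂ) r) * (-f1') +
    aa A u s x * (1 / r) * f2 + aa A u s x * (starRingEnd ℂ) (aa A u s y) * e9

theorem gam_ref_nonneg (hu : LossOff u s) (x : ι) : 0 ≤ gam (ref u s) x := by
  have := loss_ref hu x
  unfold gam
  linarith

theorem gam_update (u : ι → ℂ) (s : ι) (v : ℂ) (x : ι) :
    gam (Function.update u s v) x = gam (ref u s) x + if x = s then -v.im - 1 else 0 := by
  by_cases h : x = s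
  · subst h; simp [gam, ref]
  · simp [gam, ref, h]

theorem norm_add_sq_eq (m t : ℂ) : ‖m + t‖ ^ 2 =
    ‖m‖ ^ 2 + 2 * ((starRingEnd ℂ) m * t).re + ‖t‖ ^ 2 := by
  rw [← Complex.normSq_eq_norm_sq, ← Complex.normSq_eq_norm_sq, ← Complex.normSq_eq_norm_sq,
    Complex.normSq_add]
  have : (m * (starRingEnd ℂ) t).re = ((starRingEnd ℂ) m * t).re := by
    rw [← Complex.conj_re (m * (starRingEnd ℂ) t), map_mul, Complex.conj_conj]
  rw [this]
  ring

/-- the linear coefficient -/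
theorem cross_eq (hA : A.IsSymm) (hu : LossOff u s) (ξ : κ → ι → ℝ) :
    (∑ x, ∑ y, ((gam (ref u s) x * gam (ref u s) y * ff ξ x y : ℝ) : ℂ) *
      ((starRingEnd ℂ) (A0 A u s x y) * aa A u s x * aa A u s y)) =
      -Complex.I * (PA A ξ u s - (XX A ξ u s : ℂ)) - KA A ξ u s := by
  have h1 : ∀ x y, ((gam (ref u s) x * gam (ref u s) y * ff ξ x y : ℝ) : ℂ) *
      ((starRingEnd ℂ) (A0 A u s x y) * aa A u s x * aa A u s y) =
      (gam (ref u s) x : ℂ) * (ff ξ x s : ℂ) * aa A u s x *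
        ((gam (ref u s) y : ℂ) * (starRingEnd ℂ) (A0 A u s x y) * aa A u s y) +
      (gam (ref u s) y : ℂ) * (ff ξ y s : ℂ) * aa A u s y *
        ((gam (ref u s) x : ℂ) * (starRingEnd ℂ) (A0 A u s y x) * aa A u s x) -
      (gam (ref u s) x : ℂ) * (gam (ref u s) y : ℂ) *
    ((2 * ∑ j, (ξ j x - ξ j s) * (ξ j y - ξ j s) : ℝ) : ℂ) *
    ((starRingEnd ℂ) (A0 A u s x y) * aa A u s x * aa A u s y) := by
    intro x y
    rw [ff_eq ξ s x y, A0_symm hA y x]
    push_cast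
    ring
  simp_rw [h1]
  simp_rw [sum_sub_distrib, sum_add_distrib]
  have h2 : ∀ x, ∑ y, (gam (ref u s) x : ℂ) * (ff ξ x s : ℂ) * aa A u s x *
        ((gam (ref u s) y : ℂ) * (starRingEnd ℂ) (A0 A u s x y) * aa A u s y) =
      (gam (ref u s) x : ℂ) * (ff ξ x s : ℂ) * aa A u s x *
        ((aa A u s x - (starRingEnd ℂ) (aa A u s x)) / (2 * Complex.I)) := by
    intro x
    rw [← mul_sum, ← A0_aa hA hu x]
    congr 1
    field_simp
  have h3 : (∑ x, ∑ y, (gam (ref u s) y : ℂ) * (ff ξ y s : ℂ) * aa A u s y *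
        ((gam (ref u s) x : ℂ) * (starRingEnd ℂ) (A0 A u s y x) * aa A u s x)) =
      ∑ x, (gam (ref u s) x : ℂ) * (ff ξ x s : ℂ) * aa A u s x *
        ((aa A u s x - (starRingEnd ℂ) (aa A u s x)) / (2 * Complex.I)) := by
    rw [sum_comm]
    exact sum_congr rfl fun x _ => h2 x
  rw [h3, sum_congr rfl fun x _ => h2 x]
  have h4 : (∑ x, (gam (ref u s) x : ℂ) * (ff ξ x s : ℂ) * aa A u s x *
        ((aa A u s x - (starRingEnd ℂ) (aa A u s x)) / (2 * Complex.I))) =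
      (PA A ξ u s - (XX A ξ u s : ℂ)) / (2 * Complex.I) := by
    rw [PA, XX, Complex.ofReal_sum, ← sum_sub_distrib, sum_div]
    refine sum_congr rfl fun x _ => ?_
    have h5 : ((‖aa A u s x‖ ^ 2 : ℝ) : ℂ) = aa A u s x * (starRingEnd ℂ) (aa A u s x) := by
      rw [Complex.mul_conj, Complex.normSq_eq_norm_sq]
    rw [Complex.ofReal_mul, h5]
    push_cast
    ring
  rw [h4, KA]
  have h6 : (PA A ξ u s - (XX A ξ u s : ℂ)) / (2 * Complex.I) +
      (PA A ξ u s - (XX A ξ u s : ℂ)) / (2 * Complex.I) =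
      -Complex.I * (PA A ξ u s - (XX A ξ u s : ℂ)) := by
    have : Complex.I ≠ 0 := Complex.I_ne_zero
    field_simp
    linear_combination (2 * (PA A ξ u s - (XX A ξ u s : ℂ))) * Complex.I_sq
  rw [h6]

/-- the quadratic coefficient -/
theorem square_eq (hA : A.IsSymm) (hu : LossOff u s) (ξ : κ → ι → ℝ) :
    (∑ x, ∑ y, gam (ref u s) x * gam (ref u s) y * ff ξ x y *
      (‖aa A u s x‖ ^ 2 * ‖aa A u s y‖ ^ 2)) =
      2 * XX A ξ u s * (1 + (zz A u s).im) - 2 * JJ A ξ u s := by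
  have h1 : ∀ x y, gam (ref u s) x * gam (ref u s) y * ff ξ x y *
      (‖aa A u s x‖ ^ 2 * ‖aa A u s y‖ ^ 2) =
      (gam (ref u s) x * ff ξ x s * ‖aa A u s x‖ ^ 2) * (gam (ref u s) y * ‖aa A u s y‖ ^ 2) +
      (gam (ref u s) x * ‖aa A u s x‖ ^ 2) * (gam (ref u s) y * ff ξ y s * ‖aa A u s y‖ ^ 2) -
      2 * ∑ j, (gam (ref u s) x * ‖aa A u s x‖ ^ 2 * (ξ j x - ξ j s)) *
        (gam (ref u s) y * ‖aa A u s y‖ ^ 2 * (ξ j y - ξ j s)) := by
    intro x y
    rw [ff_eq ξ s x y]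
    have : ∑ j, (gam (ref u s) x * ‖aa A u s x‖ ^ 2 * (ξ j x - ξ j s)) *
        (gam (ref u s) y * ‖aa A u s y‖ ^ 2 * (ξ j y - ξ j s)) =
        gam (ref u s) x * ‖aa A u s x‖ ^ 2 * (gam (ref u s) y * ‖aa A u s y‖ ^ 2) *
        ∑ j, (ξ j x - ξ j s) * (ξ j y - ξ j s) := by
      rw [mul_sum]
      exact sum_congr rfl fun j _ => by ring
    rw [this]
    ring
  simp_rw [h1]
  simp_rw [sum_sub_distrib, sum_add_distrib, ← mul_sum]
  simp_rw [← sum_mul]
  rw [sum_aa hA hu]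
  have h2 : (∑ x, ∑ y, ∑ j, (gam (ref u s) x * ‖aa A u s x‖ ^ 2 * (ξ j x - ξ j s)) *
        (gam (ref u s) y * ‖aa A u s y‖ ^ 2 * (ξ j y - ξ j s))) = JJ A ξ u s := by
    rw [JJ]
    have h3 : ∀ x : ι, (∑ y, ∑ j, (gam (ref u s) x * ‖aa A u s x‖ ^ 2 * (ξ j x - ξ j s)) *
        (gam (ref u s) y * ‖aa A u s y‖ ^ 2 * (ξ j y - ξ j s))) =
        ∑ j, (gam (ref u s) x * ‖aa A u s x‖ ^ 2 * (ξ j x - ξ j s)) * JA A ξ u s j := by
      intro x
      rw [sum_comm]
      refine sum_congr rfl fun j _ => ?_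
      rw [JA, mul_sum]
    simp_rw [h3]
    rw [sum_comm]
    refine sum_congr rfl fun j _ => ?_
    rw [← sum_mul, ← JA, sq]
  rw [h2, XX]
  ring

/-- THE ONE SITE FORMULA (*) -/
theorem DU_formula (hA : A.IsSymm) (hu : LossOff u s) (ξ : κ → ι → ℝ) {v : ℂ}
    (hv : v ≠ zz A u s) :
    DU A ξ (Function.update u s v) = CA A ξ u s -
      2 * ((Complex.I * PA A ξ u s + KA A ξ u s) / (v - zz A u s)).re -
      2 * JJ A ξ u s / ‖v - zz A u s‖ ^ 2 := by
  have hz : v - zz A u s ≠ 0 := sub_ne_zero.mpr hv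
  set ζ := 1 / (v - zz A u s) with hζ
  have hζn : ‖ζ‖ ^ 2 = 1 / ‖v - zz A u s‖ ^ 2 := by
    rw [hζ, norm_div, norm_one, div_pow, one_pow]
  have hn : ‖v - zz A u s‖ ^ 2 ≠ 0 := by
    have := norm_ne_zero_iff.mpr hz
    positivity
  have hζi : ζ.im = ((zz A u s).im - v.im) * ‖ζ‖ ^ 2 := by
    rw [hζn, hζ, one_div, Complex.inv_im, Complex.normSq_eq_norm_sq, Complex.sub_im]
    ring
  have hG : ∀ x y, GM A (Function.update u s v) x y =
      A0 A u s x y + aa A u s x * aa A u s y * ζ := by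
    intro x y
    rw [G_update hA hu hv, hζ]
    ring
  -- expansion
  have e1 : ∀ x y, gam (Function.update u s v) x * gam (Function.update u s v) y * ff ξ x y *
      ‖GM A (Function.update u s v) x y‖ ^ 2 =
      gam (ref u s) x * gam (ref u s) y * ff ξ x y * ‖A0 A u s x y‖ ^ 2 +
      2 * (ζ * (((gam (ref u s) x * gam (ref u s) y * ff ξ x y : ℝ) : ℂ) *
        ((starRingEnd ℂ) (A0 A u s x y) * aa A u s x * aa A u s y))).re +
      ‖ζ‖ ^ 2 * (gam (ref u s) x * gam (ref u s) y * ff ξ x y *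
        (‖aa A u s x‖ ^ 2 * ‖aa A u s y‖ ^ 2)) +
      (if y = s then (-v.im - 1) * (gam (ref u s) x * ff ξ x s * ‖aa A u s x‖ ^ 2 * ‖ζ‖ ^ 2) else 0) +
      (if x = s then (-v.im - 1) * (gam (ref u s) y * ff ξ y s * ‖aa A u s y‖ ^ 2 * ‖ζ‖ ^ 2) else 0) := by
    intro x y
    have e2 : ‖GM A (Function.update u s v) x y‖ ^ 2 = ‖A0 A u s x y‖ ^ 2 +
        2 * (ζ * ((starRingEnd ℂ) (A0 A u s x y) * aa A u s x * aa A u s y)).re +
        ‖ζ‖ ^ 2 * (‖aa A u s x‖ ^ 2 * ‖aa A u s y‖ ^ 2) := by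
      rw [hG, norm_add_sq_eq, norm_mul, norm_mul, mul_pow, mul_pow]
      have : (starRingEnd ℂ) (A0 A u s x y) * (aa A u s x * aa A u s y * ζ) =
          ζ * ((starRingEnd ℂ) (A0 A u s x y) * aa A u s x * aa A u s y) := by ring
      rw [this]
      ring
    have e3 : (ζ * (((gam (ref u s) x * gam (ref u s) y * ff ξ x y : ℝ) : ℂ) *
        ((starRingEnd ℂ) (A0 A u s x y) * aa A u s x * aa A u s y))).re =
        gam (ref u s) x * gam (ref u s) y * ff ξ x y *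
        (ζ * ((starRingEnd ℂ) (A0 A u s x y) * aa A u s x * aa A u s y)).re := by
      rw [mul_left_comm, Complex.re_ofReal_mul]
    rw [e3]
    by_cases hx : x = s
    · by_cases hy : y = s
      · subst hx; subst hy
        simp [ff_self]
      · subst hx
        have h4 : ‖GM A (Function.update u x v) x y‖ ^ 2 = ‖aa A u x y‖ ^ 2 * ‖ζ‖ ^ 2 := by
          rw [GM_symm hA, G_xs hA hu hv, norm_div, norm_neg, div_pow, hζn]
          ring
        rw [gam_update, gam_update, if_pos rfl, if_neg hy, if_pos rfl, if_neg hy, ff_comm ξ y x]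
        linear_combination (gam (ref u x) x * gam (ref u x) y * ff ξ x y) * e2 +
          ((-v.im - 1) * gam (ref u x) y * ff ξ x y) * h4
    · by_cases hy : y = s
      · subst hy
        have h4 : ‖GM A (Function.update u y v) x y‖ ^ 2 = ‖aa A u y x‖ ^ 2 * ‖ζ‖ ^ 2 := by
          rw [G_xs hA hu hv, norm_div, norm_neg, div_pow, hζn]
          ring
        rw [gam_update, gam_update, if_pos rfl, if_neg hx, if_pos rfl, if_neg hx]
        linear_combination (gam (ref u y) x * gam (ref u y) y * ff ξ x y) * e2 +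
          ((-v.im - 1) * gam (ref u y) x * ff ξ x y) * h4
      · rw [gam_update, gam_update, if_neg hx, if_neg hy, if_neg hx, if_neg hy, e2]
        ring
  have e4 : DU A ξ (Function.update u s v) = CA A ξ u s +
      2 * (ζ * (-Complex.I * (PA A ξ u s - (XX A ξ u s : ℂ)) - KA A ξ u s)).re +
      ‖ζ‖ ^ 2 * (2 * XX A ξ u s * (1 + (zz A u s).im) - 2 * JJ A ξ u s) +
      2 * ((-v.im - 1) * (XX A ξ u s * ‖ζ‖ ^ 2)) := by
    rw [DU, DD]
    simp_rw [e1, sum_add_distrib]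
    have g1 : (∑ x, ∑ y, 2 * (ζ * (((gam (ref u s) x * gam (ref u s) y * ff ξ x y : ℝ) : ℂ) *
        ((starRingEnd ℂ) (A0 A u s x y) * aa A u s x * aa A u s y))).re) =
        2 * (ζ * (-Complex.I * (PA A ξ u s - (XX A ξ u s : ℂ)) - KA A ξ u s)).re := by
      rw [← cross_eq hA hu ξ, mul_sum, Complex.re_sum, mul_sum]
      refine sum_congr rfl fun x _ => ?_
      rw [mul_sum, Complex.re_sum, mul_sum]
    have g2 : (∑ x, ∑ y, ‖ζ‖ ^ 2 * (gam (ref u s) x * gam (ref u s) y * ff ξ x y *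
        (‖aa A u s x‖ ^ 2 * ‖aa A u s y‖ ^ 2))) =
        ‖ζ‖ ^ 2 * (2 * XX A ξ u s * (1 + (zz A u s).im) - 2 * JJ A ξ u s) := by
      rw [← square_eq hA hu ξ, mul_sum]
      exact sum_congr rfl fun x _ => by rw [mul_sum]
    have g3 : (∑ x, ∑ y, if y = s then (-v.im - 1) * (gam (ref u s) x * ff ξ x s *
        ‖aa A u s x‖ ^ 2 * ‖ζ‖ ^ 2) else 0) = (-v.im - 1) * (XX A ξ u s * ‖ζ‖ ^ 2) := by
      have : ∀ x : ι, (∑ y, if y = s then (-v.im - 1) * (gam (ref u s) x * ff ξ x s *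
        ‖aa A u s x‖ ^ 2 * ‖ζ‖ ^ 2) else 0) = (-v.im - 1) * (gam (ref u s) x * ff ξ x s *
        ‖aa A u s x‖ ^ 2 * ‖ζ‖ ^ 2) := fun x => by
        rw [Finset.sum_ite_eq' univ s]; simp
      simp_rw [this]
      rw [← mul_sum, ← sum_mul, XX]
    have g4 : (∑ x, ∑ y, if x = s then (-v.im - 1) * (gam (ref u s) y * ff ξ y s *
        ‖aa A u s y‖ ^ 2 * ‖ζ‖ ^ 2) else 0) = (-v.im - 1) * (XX A ξ u s * ‖ζ‖ ^ 2) := by
      rw [sum_comm]
      exact g3
    rw [g1, g2, g3, g4, CA, DD]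
    ring
  rw [e4]
  have e5 : (ζ * (-Complex.I * (PA A ξ u s - (XX A ξ u s : ℂ)) - KA A ξ u s)).re =
      -((Complex.I * PA A ξ u s + KA A ξ u s) / (v - zz A u s)).re - XX A ξ u s * ζ.im := by
    have : ζ * (-Complex.I * (PA A ξ u s - (XX A ξ u s : ℂ)) - KA A ξ u s) =
        -((Complex.I * PA A ξ u s + KA A ξ u s) / (v - zz A u s)) +
          (XX A ξ u s : ℂ) * (Complex.I * ζ) := by
      rw [hζ]; ring
    rw [this, Complex.add_re, Complex.neg_re, Complex.re_ofReal_mul, Complex.I_mul_re]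
    ring
  rw [e5, hζi, hζn]
  ring

/-- `|P| ≤ X` -/
theorem PA_le (hu : LossOff u s) (ξ : κ → ι → ℝ) : ‖PA A ξ u s‖ ≤ XX A ξ u s := by
  unfold PA XX
  refine (norm_sum_le _ _).trans (sum_le_sum fun x _ => ?_)
  rw [norm_mul, norm_mul, norm_pow, Complex.norm_real, Complex.norm_real,
    Real.norm_of_nonneg (gam_ref_nonneg hu x), Real.norm_of_nonneg (ff_nonneg ξ x s)]

theorem XX_nonneg (hu : LossOff u s) (ξ : κ → ι → ℝ) : 0 ≤ XX A ξ u s :=
  sum_nonneg fun x _ => mul_nonneg (mul_nonneg (gam_ref_nonneg hu x) (ff_nonneg ξ x s))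
    (by positivity)

theorem JJ_nonneg (ξ : κ → ι → ℝ) : 0 ≤ JJ A ξ u s := sum_nonneg fun _ _ => sq_nonneg _

/-- `X` without the (vanishing) term at `s` -/
theorem XX_erase (ξ : κ → ι → ℝ) : XX A ξ u s =
    ∑ x ∈ univ.erase s, gam u x * ff ξ x s * ‖aa A u s x‖ ^ 2 := by
  rw [XX, ← add_sum_erase univ _ (mem_univ s), ff_self]
  have : ∀ x ∈ univ.erase s, gam (ref u s) x * ff ξ x s * ‖aa A u s x‖ ^ 2 =
      gam u x * ff ξ x s * ‖aa A u s x‖ ^ 2 := fun x hx => by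
    have h : x ≠ s := (mem_erase.mp hx).1
    simp [gam, ref, Function.update_of_ne h]
  rw [sum_congr rfl this]
  ring

/-- `|J|² ≤ w X` -/
theorem JJ_le (hA : A.IsSymm) (hu : LossOff u s) (ξ : κ → ι → ℝ) :
    JJ A ξ u s ≤ (zz A u s).im * XX A ξ u s := by
  have hg : ∀ x ∈ univ.erase s, 0 ≤ gam u x := fun x hx => by
    have := hu x (mem_erase.mp hx).1
    unfold gam
    linarith
  have h1 : ∀ j, JA A ξ u s j = ∑ x ∈ univ.erase s,
      (Real.sqrt (gam u x) * ‖aa A u s x‖) * (Real.sqrt (gam u x) * ‖aa A u s x‖ * (ξ j x - ξ j s)) := by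
    intro j
    rw [JA, ← add_sum_erase univ _ (mem_univ s), sub_self, mul_zero, zero_add]
    refine sum_congr rfl fun x hx => ?_
    have h : x ≠ s := (mem_erase.mp hx).1
    have h2 : gam (ref u s) x = gam u x := by simp [gam, ref, Function.update_of_ne h]
    rw [h2]
    have h3 := Real.mul_self_sqrt (hg x hx)
    conv_lhs => rw [← h3]
    ring
  have h2 : ∀ j, JA A ξ u s j ^ 2 ≤ (zz A u s).im *
      ∑ x ∈ univ.erase s, gam u x * ‖aa A u s x‖ ^ 2 * (ξ j x - ξ j s) ^ 2 := by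
    intro j
    rw [h1 j, zz_im hA hu]
    refine (sum_mul_sq_le_sq_mul_sq _ _ _).trans (le_of_eq ?_)
    congr 1
    · refine sum_congr rfl fun x hx => ?_
      rw [mul_pow, Real.sq_sqrt (hg x hx)]
    · refine sum_congr rfl fun x hx => ?_
      rw [mul_pow, mul_pow, Real.sq_sqrt (hg x hx)]
  rw [JJ, XX_erase]
  calc ∑ j, JA A ξ u s j ^ 2 ≤ ∑ j, (zz A u s).im *
      ∑ x ∈ univ.erase s, gam u x * ‖aa A u s x‖ ^ 2 * (ξ j x - ξ j s) ^ 2 :=
        sum_le_sum fun j _ => h2 j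
    _ = (zz A u s).im * ∑ x ∈ univ.erase s, gam u x * ff ξ x s * ‖aa A u s x‖ ^ 2 := by
        rw [← mul_sum, sum_comm]
        congr 1
        refine sum_congr rfl fun x _ => ?_
        rw [← mul_sum, ff]
        ring

/-- `|Kt| ≤ 2 X` -/
theorem KA_le (hA : A.IsSymm) (hu : LossOff u s) (ξ : κ → ι → ℝ) :
    ‖KA A ξ u s‖ ≤ 2 * XX A ξ u s := by
  have hg := gam_ref_nonneg (s := s) hu
  have h1 : KA A ξ u s = ∑ j, 2 * ∑ x, ∑ y, (starRingEnd ℂ) (A0 A u s x y) *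
      (Real.sqrt (gam (ref u s) x) * (Real.sqrt (gam (ref u s) x) * ((ξ j x - ξ j s : ℝ) : ℂ) * aa A u s x)) *
      (Real.sqrt (gam (ref u s) y) * (Real.sqrt (gam (ref u s) y) * ((ξ j y - ξ j s : ℝ) : ℂ) * aa A u s y)) := by
    rw [KA]
    simp_rw [mul_sum]
    rw [sum_comm (s := (univ : Finset κ))]
    refine sum_congr rfl fun x _ => ?_
    rw [sum_comm (s := (univ : Finset κ))]
    refine sum_congr rfl fun y _ => ?_
    have h3 : ∀ x, (Real.sqrt (gam (ref u s) x) : ℂ) * (Real.sqrt (gam (ref u s) x) : ℂ) =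
        (gam (ref u s) x : ℂ) := fun x => by
      rw [← Complex.ofReal_mul, Real.mul_self_sqrt (hg x)]
    rw [Complex.ofReal_sum, mul_sum, sum_mul]
    refine sum_congr rfl fun j _ => ?_
    rw [← h3 x, ← h3 y]
    push_cast
    ring
  rw [h1]
  refine (norm_sum_le _ _).trans ?_
  have h4 : ∀ j, ‖2 * ∑ x, ∑ y, (starRingEnd ℂ) (A0 A u s x y) *
      (Real.sqrt (gam (ref u s) x) * (Real.sqrt (gam (ref u s) x) * ((ξ j x - ξ j s : ℝ) : ℂ) * aa A u s x)) *
      (Real.sqrt (gam (ref u s) y) * (Real.sqrt (gam (ref u s) y) * ((ξ j y - ξ j s : ℝ) : ℂ) * aa A u s y))‖ ≤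
      2 * ∑ x, gam (ref u s) x * (ξ j x - ξ j s) ^ 2 * ‖aa A u s x‖ ^ 2 := by
    intro j
    rw [norm_mul]
    have h5 := (ward0 hA hu).bilin hg
      (fun x => Real.sqrt (gam (ref u s) x) * ((ξ j x - ξ j s : ℝ) : ℂ) * aa A u s x)
      (fun x => Real.sqrt (gam (ref u s) x) * ((ξ j x - ξ j s : ℝ) : ℂ) * aa A u s x)
    rw [Real.mul_self_sqrt (sum_nonneg fun x _ => by positivity)] at h5
    have h6 : ∑ x, ‖(Real.sqrt (gam (ref u s) x) : ℂ) * ((ξ j x - ξ j s : ℝ) : ℂ) * aa A u s x‖ ^ 2 =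
        ∑ x, gam (ref u s) x * (ξ j x - ξ j s) ^ 2 * ‖aa A u s x‖ ^ 2 := by
      refine sum_congr rfl fun x _ => ?_
      rw [norm_mul, norm_mul, mul_pow, mul_pow, Complex.norm_real, Complex.norm_real, Real.norm_eq_abs,
        Real.norm_eq_abs, sq_abs, sq_abs, Real.sq_sqrt (hg x)]
    rw [h6] at h5
    have h7 : ‖(2 : ℂ)‖ = 2 := by simp
    rw [h7]
    exact mul_le_mul_of_nonneg_left h5 (by norm_num)
  refine (sum_le_sum fun j _ => h4 j).trans (le_of_eq ?_)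
  rw [← mul_sum, sum_comm, XX]
  congr 1
  refine sum_congr rfl fun x _ => ?_
  rw [ff, mul_sum, sum_mul]

/-- the coefficient `i P + Kt` -/
theorem PK_le (hA : A.IsSymm) (hu : LossOff u s) (ξ : κ → ι → ℝ) :
    ‖Complex.I * PA A ξ u s + KA A ξ u s‖ ≤ 3 * XX A ξ u s := by
  have h1 := PA_le (A := A) hu ξ
  have h2 := KA_le hA hu ξ
  calc ‖Complex.I * PA A ξ u s + KA A ξ u s‖ ≤ ‖Complex.I * PA A ξ u s‖ + ‖KA A ξ u s‖ :=
        norm_add_le _ _
    _ = ‖PA A ξ u s‖ + ‖KA A ξ u s‖ := by rw [norm_mul, Complex.norm_I, one_mul]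
    _ ≤ 3 * XX A ξ u s := by linarith

/-- the share of `s` when the potential at `s` is `v` -/
theorem share_eq (hA : A.IsSymm) (hu : LossOff u s) (ξ : κ → ι → ℝ) {v : ℂ}
    (hv : v ≠ zz A u s) : share A ξ (Function.update u s v) s =
      2 * (-v.im) * (XX A ξ u s / ‖v - zz A u s‖ ^ 2) := by
  rw [share, XX, sum_div]
  have h1 : gam (Function.update u s v) s = -v.im := by simp [gam]
  rw [h1]
  congr 1
  refine sum_congr rfl fun x _ => ?_
  rw [G_xs hA hu hv, norm_div, norm_neg, div_pow]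
  by_cases h : x = s
  · subst h; simp [ff_self]
  · have : gam (Function.update u s v) x = gam (ref u s) x := by
      simp [gam, ref, Function.update_of_ne h]
    rw [this]
    ring

/-- the shares sum up to twice the functional -/
theorem sum_share (A : Matrix ι ι ℝ) (ξ : κ → ι → ℝ) (u : ι → ℂ) :
    ∑ s, share A ξ u s = 2 * DU A ξ u := by
  rw [DU, DD, sum_comm, mul_sum]
  refine sum_congr rfl fun s _ => ?_
  rw [share, mul_assoc, mul_sum]
  congr 1
  exact sum_congr rfl fun x _ => by ring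

theorem DU_nonneg {A : Matrix ι ι ℝ} (ξ : κ → ι → ℝ) (hu : Loss u) : 0 ≤ DU A ξ u := by
  refine sum_nonneg fun x _ => sum_nonneg fun y _ => mul_nonneg (mul_nonneg (mul_nonneg ?_ ?_)
    (ff_nonneg ξ x y)) (by positivity)
  · have := hu x
    unfold gam; linarith
  · have := hu y
    unfold gam; linarith

theorem share_nonneg {A : Matrix ι ι ℝ} (ξ : κ → ι → ℝ) (hu : Loss u) (s : ι) :
    0 ≤ share A ξ u s := by
  have hg : ∀ x, 0 ≤ gam u x := fun x => by
    have := hu x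
    unfold gam; linarith
  exact mul_nonneg (mul_nonneg (by norm_num) (hg s))
    (sum_nonneg fun x _ => mul_nonneg (mul_nonneg (hg x) (ff_nonneg ξ x s)) (by positivity))

end Pool.Agent.Lib.MP_562b47_mp.AL
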