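import Pool.Agent.Lib.MP_562b47_mp.AL.Ward

/-!
MP_562b47, algebra of the trades: dependence of the Green function on the potential at one site.
-/

open Matrix Finset

set_option linter.unusedSectionVars false

namespace Pool.Agent.Lib.MP_562b47_mp.AL

variable {ι κ : Type*} [Fintype ι] [DecidableEq ι] [Fintype κ]
variable {A : Matrix ι ι ℝ} {u : ι → ℂ} {s : ι}

theorem ref_update (u : ι → ℂ) (s : ι) (v : ℂ) : ref (Function.update u s v) s = ref u s := by
  simp [ref]

theorem aa_update (v : ℂ) : aa A (Function.update u s v) s = aa A u s := by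
  funext x; simp [aa, ref_update]

theorem zz_update (v : ℂ) : zz A (Function.update u s v) s = zz A u s := by
  simp [zz, ref_update]

theorem A0_update (v : ℂ) : A0 A (Function.update u s v) s = A0 A u s := by
  funext x y; simp [A0, ref_update]

theorem XX_update (ξ : κ → ι → ℝ) (v : ℂ) : XX A ξ (Function.update u s v) s = XX A ξ u s := by
  simp [XX, ref_update, aa_update]

theorem PA_update (ξ : κ → ι → ℝ) (v : ℂ) : PA A ξ (Function.update u s v) s = PA A ξ u s := by
  simp [PA, ref_update, aa_update]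

theorem JJ_update (ξ : κ → ι → ℝ) (v : ℂ) : JJ A ξ (Function.update u s v) s = JJ A ξ u s := by
  simp [JJ, JA, ref_update, aa_update]

theorem KA_update (ξ : κ → ι → ℝ) (v : ℂ) : KA A ξ (Function.update u s v) s = KA A ξ u s := by
  simp [KA, ref_update, aa_update, A0_update]

theorem CA_update (ξ : κ → ι → ℝ) (v : ℂ) : CA A ξ (Function.update u s v) s = CA A ξ u s := by
  simp [CA, ref_update, A0_update]

theorem loss_ref (hu : LossOff u s) : Loss (ref u s) := by
  intro x
  by_cases h : x = s
  · subst h; simp [ref]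
  · simpa [ref, Function.update_of_ne h] using hu x h

theorem loss_update (hu : LossOff u s) {v : ℂ} (hv : v.im < 0) : Loss (Function.update u s v) := by
  intro x
  by_cases h : x = s
  · subst h; simpa using hv
  · simpa [Function.update_of_ne h] using hu x h

theorem Loss.off (hu : Loss u) (s : ι) : LossOff u s := fun x _ => hu x

theorem Gref_ne (hA : A.IsSymm) (hu : LossOff u s) : GM A (ref u s) s s ≠ 0 := by
  intro h
  have := GM_im_pos hA (loss_ref hu) s
  rw [h] at this
  simp at this

theorem aa_self (hA : A.IsSymm) (hu : LossOff u s) : aa A u s s = -1 := by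
  rw [aa, neg_div, div_self (Gref_ne hA hu)]

theorem A0_right (hA : A.IsSymm) (hu : LossOff u s) (x : ι) : A0 A u s x s = 0 := by
  have := Gref_ne hA hu
  rw [A0]
  field_simp
  ring

theorem A0_left (hA : A.IsSymm) (hu : LossOff u s) (x : ι) : A0 A u s s x = 0 := by
  have := Gref_ne hA hu
  rw [A0]
  field_simp
  ring

theorem A0_symm (hA : A.IsSymm) (x y : ι) : A0 A u s x y = A0 A u s y x := by
  rw [A0, A0, GM_symm hA _ x y, GM_symm hA _ x s, GM_symm hA _ s y]
  ring

/-- the reference Green function in terms of the data without `s` -/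
theorem Gref_eq (hA : A.IsSymm) (hu : LossOff u s) (x y : ι) :
    GM A (ref u s) x y = A0 A u s x y + aa A u s x * aa A u s y / (-Complex.I - zz A u s) := by
  have h := Gref_ne hA hu
  rw [A0, aa, aa, zz, GM_symm hA _ s y]
  have : (-Complex.I - (-Complex.I - (GM A (ref u s) s s)⁻¹)) = (GM A (ref u s) s s)⁻¹ := by ring
  rw [this]
  field_simp
  ring

theorem HM_update (A : Matrix ι ι ℝ) (u : ι → ℂ) (s : ι) (v w : ℂ) (x y : ι) :
    HM A (Function.update u s v) x y =
      HM A (Function.update u s w) x y + if x = s ∧ y = s then v - w else 0 := by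
  rw [HM_apply, HM_apply]
  by_cases h : x = y
  · subst h
    by_cases h2 : x = s
    · subst h2; simp
    · simp [h2]
  · have : ¬ (x = s ∧ y = s) := fun h3 => h (h3.1.trans h3.2.symm)
    simp [h, this]

/-- the Green function as a function of the potential at `s` -/
theorem G_update (hA : A.IsSymm) (hu : LossOff u s) {v : ℂ} (hv : v ≠ zz A u s) (x y : ι) :
    GM A (Function.update u s v) x y =
      A0 A u s x y + aa A u s x * aa A u s y / (v - zz A u s) := by
  have hz : v - zz A u s ≠ 0 := sub_ne_zero.mpr hv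
  have hG := Gref_ne hA hu
  have hz0 : (-Complex.I - zz A u s) ≠ 0 := by
    rw [zz]
    have : (-Complex.I - (-Complex.I - (GM A (ref u s) s s)⁻¹)) = (GM A (ref u s) s s)⁻¹ := by ring
    rw [this]
    exact inv_ne_zero hG
  set K : Matrix ι ι ℂ := fun x y => A0 A u s x y + aa A u s x * aa A u s y / (v - zz A u s) with hK
  have hmul : HM A (Function.update u s v) * K = 1 := by
    ext p q
    have h1 : (HM A (ref u s) * GM A (ref u s)) p q = (1 : Matrix ι ι ℂ) p q := by
      rw [HM_mul_GM hA (loss_ref hu)]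
    have h1' : (HM A (ref u s) * GM A (ref u s)) p s = (1 : Matrix ι ι ℂ) p s := by
      rw [HM_mul_GM hA (loss_ref hu)]
    -- `K = G + (1/(v-z) - 1/(-i-z)) a a`
    have h2 : ∀ y, K y q = GM A (ref u s) y q + (1 / (v - zz A u s) - 1 / (-Complex.I - zz A u s)) *
        (aa A u s y * aa A u s q) := by
      intro y
      rw [Gref_eq hA hu]
      show A0 A u s y q + aa A u s y * aa A u s q / (v - zz A u s) = _
      ring
    have h3 : ∀ y, aa A u s y = -(-Complex.I - zz A u s) * GM A (ref u s) y s := by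
      intro y
      rw [Gref_eq hA hu, A0_right hA hu, aa_self hA hu]
      field_simp
      ring
    have h4 : ∑ y, HM A (ref u s) p y * GM A (ref u s) y q = (1 : Matrix ι ι ℂ) p q := by
      rw [← h1, mul_apply]
    have h5 : ∑ y, HM A (ref u s) p y * aa A u s y =
        -(-Complex.I - zz A u s) * (1 : Matrix ι ι ℂ) p s := by
      simp_rw [h3]
      rw [← h1', mul_apply, mul_sum]
      exact sum_congr rfl fun y _ => by ring
    have h6 : ∑ y, HM A (ref u s) p y * K y q = (1 : Matrix ι ι ℂ) p q +
        (1 / (v - zz A u s) - 1 / (-Complex.I - zz A u s)) *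
        (-(-Complex.I - zz A u s) * (1 : Matrix ι ι ℂ) p s * aa A u s q) := by
      simp_rw [h2, mul_add]
      rw [sum_add_distrib, h4, ← h5, sum_mul, mul_sum]
      congr 1
      exact sum_congr rfl fun y _ => by ring
    rw [mul_apply]
    have h7 : ∀ y, HM A (Function.update u s v) p y * K y q = HM A (ref u s) p y * K y q +
        if y = s then (if p = s then (v + Complex.I) * K s q else 0) else 0 := by
      intro y
      rw [HM_update A u s v (-Complex.I) p y]
      by_cases hy : y = s
      · subst hy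
        by_cases hp : p = y
        · subst hp
          simp only [and_self, if_true, ref]
          ring
        · simp [hp, ref]
      · simp [hy, ref]
    simp_rw [h7]
    rw [sum_add_distrib, h6, Finset.sum_ite_eq' univ s]
    simp only [mem_univ, if_true]
    have h8 : K s q = -(aa A u s q) / (v - zz A u s) := by
      show A0 A u s s q + aa A u s s * aa A u s q / (v - zz A u s) = _
      rw [A0_left hA hu, aa_self hA hu]
      ring
    by_cases hp : p = s
    · subst hp
      rw [h8, one_apply_eq]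
      simp only [if_true]
      field_simp
      ring
    · have h9 : (1 : Matrix ι ι ℂ) p s = 0 := one_apply_ne hp
      rw [h9, if_neg hp]
      ring
  have hmul2 : K * HM A (Function.update u s v) = 1 := (mul_eq_one_comm).mp hmul
  have : GM A (Function.update u s v) = K := by
    rw [GM]
    exact inv_eq_right_inv hmul
  rw [this]

/-- `G_ss = 1/(u_s - z)` -/
theorem G_ss (hA : A.IsSymm) (hu : LossOff u s) {v : ℂ} (hv : v ≠ zz A u s) :
    GM A (Function.update u s v) s s = 1 / (v - zz A u s) := by
  rw [G_update hA hu hv, A0_right hA hu, aa_self hA hu]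
  ring

theorem G_xs (hA : A.IsSymm) (hu : LossOff u s) {v : ℂ} (hv : v ≠ zz A u s) (x : ι) :
    GM A (Function.update u s v) x s = -(aa A u s x) / (v - zz A u s) := by
  rw [G_update hA hu hv, A0_right hA hu, aa_self hA hu]
  ring

/-- `∑ γ |a|² = γ_s + Im z` at the reference potential (`γ_s = 1`) -/
theorem sum_aa (hA : A.IsSymm) (hu : LossOff u s) :
    ∑ x, gam (ref u s) x * ‖aa A u s x‖ ^ 2 = 1 + (zz A u s).im := by
  have h := (ward hA (loss_ref hu)).im_diag s
  have hG := Gref_ne hA hu
  have h1 : ∀ x, GM A (ref u s) x s = -(aa A u s x * GM A (ref u s) s s) := by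
    intro x
    rw [aa]
    field_simp
  have h2 : ∀ x, gam (ref u s) x * ‖GM A (ref u s) x s‖ ^ 2 =
      gam (ref u s) x * ‖aa A u s x‖ ^ 2 * ‖GM A (ref u s) s s‖ ^ 2 := by
    intro x
    conv_lhs => rw [h1 x, norm_neg, norm_mul, mul_pow]
    ring
  simp_rw [h2] at h
  rw [← sum_mul] at h
  have h3 : (zz A u s).im = -1 + (GM A (ref u s) s s).im / ‖GM A (ref u s) s s‖ ^ 2 := by
    rw [zz, Complex.sub_im, Complex.inv_im, Complex.normSq_eq_norm_sq]
    simp
    ring
  have h4 : ‖GM A (ref u s) s s‖ ^ 2 ≠ 0 := by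
    have := norm_ne_zero_iff.mpr hG
    positivity
  rw [h3, h]
  field_simp
  ring

/-- `w = Im z = ∑_{x ≠ s} γ_x |a_x|²` -/
theorem zz_im (hA : A.IsSymm) (hu : LossOff u s) :
    (zz A u s).im = ∑ x ∈ univ.erase s, gam u x * ‖aa A u s x‖ ^ 2 := by
  have h := sum_aa hA hu
  rw [← add_sum_erase univ _ (mem_univ s), aa_self hA hu] at h
  have h1 : gam (ref u s) s = 1 := by simp [gam, ref]
  have h2 : ∑ x ∈ univ.erase s, gam (ref u s) x * ‖aa A u s x‖ ^ 2 =
      ∑ x ∈ univ.erase s, gam u x * ‖aa A u s x‖ ^ 2 := by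
    refine sum_congr rfl fun x hx => ?_
    have : x ≠ s := (mem_erase.mp hx).1
    simp [gam, ref, Function.update_of_ne this]
  rw [h1, h2] at h
  simp only [norm_neg, norm_one] at h
  linarith

theorem zz_im_nonneg (hA : A.IsSymm) (hu : LossOff u s) : 0 ≤ (zz A u s).im := by
  rw [zz_im hA hu]
  refine sum_nonneg fun x hx => mul_nonneg ?_ (by positivity)
  have := hu x (mem_erase.mp hx).1
  unfold gam
  linarith

theorem ne_zz (hA : A.IsSymm) (hu : LossOff u s) {v : ℂ} (hv : v.im < 0) : v ≠ zz A u s := by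
  intro h
  have := zz_im_nonneg hA hu
  rw [← h] at this
  linarith

/-- the Ward identity for the vector `a` -/
theorem A0_aa (hA : A.IsSymm) (hu : LossOff u s) (x : ι) :
    2 * Complex.I * ∑ y, (gam (ref u s) y : ℂ) * (starRingEnd ℂ) (A0 A u s x y) * aa A u s y =
      aa A u s x - (starRingEnd ℂ) (aa A u s x) := by
  set r := -Complex.I - zz A u s with hr
  have hG := Gref_ne hA hu
  have hr0 : r ≠ 0 := by
    rw [hr, zz]
    have : (-Complex.I - (-Complex.I - (GM A (ref u s) s s)⁻¹)) = (GM A (ref u s) s s)⁻¹ := by ring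
    rw [this]
    exact inv_ne_zero hG
  have hr0' : (starRingEnd ℂ) r ≠ 0 := (map_ne_zero _).mpr hr0
  have hW := ward hA (loss_ref hu)
  have e1 := hW.conj x s
  have hGx : ∀ x, GM A (ref u s) x s = -(aa A u s x) / r := by
    intro x
    rw [Gref_eq hA hu, A0_right hA hu, aa_self hA hu]
    ring
  have e2 : ∀ k, (gam (ref u s) k : ℂ) * (starRingEnd ℂ) (GM A (ref u s) x k) * GM A (ref u s) k s =
      -(1 / r) * ((gam (ref u s) k : ℂ) * (starRingEnd ℂ) (A0 A u s x k) * aa A u s k) -
      (1 / r) * (1 / (starRingEnd ℂ) r) * (starRingEnd ℂ) (aa A u s x) *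
        ((gam (ref u s) k * ‖aa A u s k‖ ^ 2 : ℝ) : ℂ) := by
    intro k
    rw [hGx k, Gref_eq hA hu x k, ← hr]
    have h3 : ((‖aa A u s k‖ ^ 2 : ℝ) : ℂ) = aa A u s k * (starRingEnd ℂ) (aa A u s k) := by
      rw [Complex.mul_conj, Complex.normSq_eq_norm_sq]
    rw [Complex.ofReal_mul, h3]
    simp only [map_add, map_mul, map_div₀]
    field_simp
    ring
  simp_rw [e2] at e1
  rw [sum_sub_distrib, ← mul_sum, ← mul_sum, ← Complex.ofReal_sum, sum_aa hA hu, hGx x] at e1
  have e3 : ((1 + (zz A u s).im : ℝ) : ℂ) = ((starRingEnd ℂ) r - r) / (2 * Complex.I) := by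
    have h5 := Complex.sub_conj r
    have h6 : r.im = -(1 + (zz A u s).im) := by
      rw [hr]; simp; ring
    rw [h6] at h5
    rw [eq_div_iff (by simp)]
    push_cast at h5 ⊢
    linear_combination h5
  rw [e3] at e1
  simp only [map_div₀, map_neg] at e1
  have e4 : (starRingEnd ℂ) r * r * ((2 * Complex.I * ∑ y, (gam (ref u s) y : ℂ) *
      (starRingEnd ℂ) (A0 A u s x y) * aa A u s y) -
      (aa A u s x - (starRingEnd ℂ) (aa A u s x))) = 0 := by
    have e6 : (-aa A u s x / r - -(starRingEnd ℂ) (aa A u s x) / (starRingEnd ℂ) r) * r =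
        (2 * Complex.I *
      (-(1 / r) * (∑ i, ↑(gam (ref u s) i) * (starRingEnd ℂ) (A0 A u s x i) * aa A u s i) -
        1 / r * (1 / (starRingEnd ℂ) r) * (starRingEnd ℂ) (aa A u s x) *
          (((starRingEnd ℂ) r - r) / (2 * Complex.I)))) * r := by rw [e1]
    have e7 : (-aa A u s x / r - -(starRingEnd ℂ) (aa A u s x) / (starRingEnd ℂ) r) * r =
        -aa A u s x + (starRingEnd ℂ) (aa A u s x) * r / (starRingEnd ℂ) r := by
      field_simp
      ring
    have e8 : (2 * Complex.I *
      (-(1 / r) * (∑ i, ↑(gam (ref u s) i) * (starRingEnd ℂ) (A0 A u s x i) * aa A u s i) -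
        1 / r * (1 / (starRingEnd ℂ) r) * (starRingEnd ℂ) (aa A u s x) *
          (((starRingEnd ℂ) r - r) / (2 * Complex.I)))) * r =
        -(2 * Complex.I * (∑ i, ↑(gam (ref u s) i) * (starRingEnd ℂ) (A0 A u s x i) * aa A u s i)) -
          (starRingEnd ℂ) (aa A u s x) + (starRingEnd ℂ) (aa A u s x) * r / (starRingEnd ℂ) r := by
      field_simp
      ring
    rw [e7, e8] at e6
    linear_combination ((starRingEnd ℂ) r * r) * e6
  have e5 := (mul_eq_zero.mp e4).resolve_left (mul_ne_zero hr0' hr0)
  linear_combination e5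

end Pool.Agent.Lib.MP_562b47_mp.AL
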