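import Pool.Agent.Lib.MP_562b47_mp.AL.OneSite

/-!
MP_562b47, algebra of the trades: one trade.  An absorber `ζ - i g - i a` at the site `s` is replaced
by the random real potential `ζ + v` (law `ν`) with background absorption `a`.
-/

open Matrix Finset MeasureTheory

set_option linter.unusedSectionVars false

namespace Pool.Agent.Lib.MP_562b47_mp.AL

variable {ι κ : Type*} [Fintype ι] [DecidableEq ι] [Fintype κ]
variable {A : Matrix ι ι ℝ} {u : ι → ℂ} {s : ι}

/-- `m_ν(y) = ∫ 1/(v - y) dν(v)` -/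
noncomputable def mnu (ν : Measure ℝ) (y : ℂ) : ℂ := ∫ v, 1 / ((v : ℂ) - y) ∂ν

/-- the value `-1/(y + i g)` for the absorber -/
noncomputable def mC (g : ℝ) (y : ℂ) : ℂ := -1 / (y + g * Complex.I)

/-- `y = z - ζ + i a` -/
noncomputable def yy (A : Matrix ι ι ℝ) (u : ι → ℂ) (s : ι) (ζ a : ℝ) : ℂ :=
  zz A u s - ζ + a * Complex.I

theorem yy_im (A : Matrix ι ι ℝ) (u : ι → ℂ) (s : ι) (ζ a : ℝ) :
    (yy A u s ζ a).im = (zz A u s).im + a := by simp [yy]

theorem sub_ne {y : ℂ} (hy : 0 < y.im) (v : ℝ) : (v : ℂ) - y ≠ 0 := by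
  intro h
  have := congrArg Complex.im h
  simp at this
  linarith

theorem im_le_norm_sub (y : ℂ) (v : ℝ) : |y.im| ≤ ‖(v : ℂ) - y‖ := by
  have := Complex.abs_im_le_norm ((v : ℂ) - y)
  simpa using this

theorem norm_one_div_sub_le {y : ℂ} (hy : 0 < y.im) (v : ℝ) : ‖1 / ((v : ℂ) - y)‖ ≤ 1 / y.im := by
  rw [norm_div, norm_one]
  have := im_le_norm_sub y v
  rw [abs_of_pos hy] at this
  exact one_div_le_one_div_of_le hy this

theorem continuous_one_div_sub {y : ℂ} (hy : 0 < y.im) :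
    Continuous fun v : ℝ => 1 / ((v : ℂ) - y) :=
  continuous_const.div (Complex.continuous_ofReal.sub continuous_const) fun v => sub_ne hy v

theorem continuous_one_div_norm {y : ℂ} (hy : 0 < y.im) :
    Continuous fun v : ℝ => 1 / ‖(v : ℂ) - y‖ ^ 2 := by
  refine continuous_const.div ((Complex.continuous_ofReal.sub continuous_const).norm.pow 2) fun v => ?_
  have := norm_ne_zero_iff.mpr (sub_ne hy v)
  positivity

theorem integrable_one_div_sub (ν : Measure ℝ) [IsFiniteMeasure ν] {y : ℂ} (hy : 0 < y.im) :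
    Integrable (fun v : ℝ => 1 / ((v : ℂ) - y)) ν :=
  Integrable.of_bound (continuous_one_div_sub hy).aestronglyMeasurable (1 / y.im)
    (Filter.Eventually.of_forall fun v => norm_one_div_sub_le hy v)

theorem integrable_one_div_norm (ν : Measure ℝ) [IsFiniteMeasure ν] {y : ℂ} (hy : 0 < y.im) :
    Integrable (fun v : ℝ => 1 / ‖(v : ℂ) - y‖ ^ 2) ν := by
  refine Integrable.of_bound (continuous_one_div_norm hy).aestronglyMeasurable ((1 / y.im) ^ 2)
    (Filter.Eventually.of_forall fun v => ?_)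
  have h := norm_one_div_sub_le hy v
  rw [Real.norm_of_nonneg (by positivity)]
  calc 1 / ‖(v : ℂ) - y‖ ^ 2 = ‖1 / ((v : ℂ) - y)‖ ^ 2 := by
        rw [norm_div, norm_one, div_pow, one_pow]
    _ ≤ _ := by gcongr

theorem im_one_div (w : ℂ) : (1 / w).im = -w.im / ‖w‖ ^ 2 := by
  rw [one_div, Complex.inv_im, Complex.normSq_eq_norm_sq]

/-- `∫ 1/|v - y|² = Im m_ν(y) / Im y` -/
theorem mnu_im (ν : Measure ℝ) [IsFiniteMeasure ν] {y : ℂ} (hy : 0 < y.im) :
    (mnu ν y).im = y.im * ∫ v, 1 / ‖(v : ℂ) - y‖ ^ 2 ∂ν := by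
  have h := integral_im (𝕜 := ℂ) (integrable_one_div_sub ν hy)
  have h2 : (mnu ν y).im = ∫ v, (1 / ((v : ℂ) - y)).im ∂ν := by
    rw [mnu]
    exact h.symm
  rw [h2, ← integral_const_mul]
  refine integral_congr_ae (Filter.Eventually.of_forall fun v => ?_)
  simp only
  rw [im_one_div, Complex.sub_im, Complex.ofReal_im]
  ring

theorem mC_im {g : ℝ} {y : ℂ} : (mC g y).im = (y.im + g) / ‖y + g * Complex.I‖ ^ 2 := by
  have : mC g y = -(1 / (y + g * Complex.I)) := by rw [mC]; ring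
  rw [this, Complex.neg_im, im_one_div]
  simp
  ring

/-- the functional as a function of the potential `ζ + v - i a` at `s` -/
theorem DU_site (hA : A.IsSymm) (hu : LossOff u s) (ξ : κ → ι → ℝ) (ζ : ℝ) {a : ℝ} (ha : 0 < a)
    (v : ℝ) : DU A ξ (Function.update u s (ζ + v - a * Complex.I)) = CA A ξ u s -
      2 * ((Complex.I * PA A ξ u s + KA A ξ u s) * (1 / ((v : ℂ) - yy A u s ζ a))).re -
      2 * JJ A ξ u s * (1 / ‖(v : ℂ) - yy A u s ζ a‖ ^ 2) := by
  have h1 : ((ζ : ℂ) + v - a * Complex.I) ≠ zz A u s := ne_zz hA hu (by simp; exact ha)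
  have h2 : ((ζ : ℂ) + v - a * Complex.I) - zz A u s = (v : ℂ) - yy A u s ζ a := by
    rw [yy]; ring
  rw [DU_formula hA hu ξ h1, h2]
  ring_nf

theorem yy_im_pos (hA : A.IsSymm) (hu : LossOff u s) (ζ : ℝ) {a : ℝ} (ha : 0 < a) :
    0 < (yy A u s ζ a).im := by
  rw [yy_im]
  have := zz_im_nonneg hA hu
  linarith

theorem continuous_DU_site (hA : A.IsSymm) (hu : LossOff u s) (ξ : κ → ι → ℝ) (ζ : ℝ) {a : ℝ}
    (ha : 0 < a) : Continuous fun v : ℝ => DU A ξ (Function.update u s (ζ + v - a * Complex.I)) := by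
  simp_rw [DU_site hA hu ξ ζ ha]
  have hy := yy_im_pos hA hu ζ ha
  exact (continuous_const.sub (continuous_const.mul (Complex.continuous_re.comp
    (continuous_const.mul (continuous_one_div_sub hy))))).sub
    (continuous_const.mul (continuous_one_div_norm hy))

theorem integrable_DU_site (hA : A.IsSymm) (hu : LossOff u s) (ξ : κ → ι → ℝ) (ζ : ℝ) {a : ℝ}
    (ha : 0 < a) (ν : Measure ℝ) [IsFiniteMeasure ν] :
    Integrable (fun v : ℝ => DU A ξ (Function.update u s (ζ + v - a * Complex.I))) ν := by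
  simp_rw [DU_site hA hu ξ ζ ha]
  have hy := yy_im_pos hA hu ζ ha
  exact ((integrable_const _).sub (((integrable_one_div_sub ν hy).const_mul
    (Complex.I * PA A ξ u s + KA A ξ u s)).re.const_mul 2)).sub
    ((integrable_one_div_norm ν hy).const_mul _)

theorem integral_DU_site (hA : A.IsSymm) (hu : LossOff u s) (ξ : κ → ι → ℝ) (ζ : ℝ) {a : ℝ}
    (ha : 0 < a) (ν : Measure ℝ) [IsProbabilityMeasure ν] :
    ∫ v, DU A ξ (Function.update u s (ζ + v - a * Complex.I)) ∂ν = CA A ξ u s -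
      2 * ((Complex.I * PA A ξ u s + KA A ξ u s) * mnu ν (yy A u s ζ a)).re -
      2 * JJ A ξ u s * ((mnu ν (yy A u s ζ a)).im / (yy A u s ζ a).im) := by
  simp_rw [DU_site hA hu ξ ζ ha]
  have hy := yy_im_pos hA hu ζ ha
  have i1 : Integrable (fun v : ℝ => ((Complex.I * PA A ξ u s + KA A ξ u s) *
      (1 / ((v : ℂ) - yy A u s ζ a))).re) ν :=
    ((integrable_one_div_sub ν hy).const_mul (Complex.I * PA A ξ u s + KA A ξ u s)).re
  have i2 : Integrable (fun v : ℝ => CA A ξ u s - 2 * ((Complex.I * PA A ξ u s + KA A ξ u s) *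
      (1 / ((v : ℂ) - yy A u s ζ a))).re) ν := (integrable_const _).sub (i1.const_mul 2)
  rw [integral_sub i2
    ((integrable_one_div_norm ν hy).const_mul _), integral_sub (integrable_const _) (i1.const_mul 2),
    integral_const_mul, integral_const_mul]
  have h2 : ∫ v : ℝ, ((Complex.I * PA A ξ u s + KA A ξ u s) *
      (1 / ((v : ℂ) - yy A u s ζ a))).re ∂ν =
      ((Complex.I * PA A ξ u s + KA A ξ u s) * mnu ν (yy A u s ζ a)).re := by
    have h := integral_re (𝕜 := ℂ) ((integrable_one_div_sub ν hy).const_mul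
      (Complex.I * PA A ξ u s + KA A ξ u s))
    rw [mnu, ← integral_const_mul]
    exact h
  rw [h2, mnu_im ν hy]
  have h3 : (yy A u s ζ a).im ≠ 0 := hy.ne'
  simp only [integral_const, probReal_univ, smul_eq_mul, one_mul]
  field_simp

/-- exact form of one trade -/
theorem trade_exact (hA : A.IsSymm) (hu : LossOff u s) (ξ : κ → ι → ℝ) (ζ : ℝ) {a g : ℝ}
    (ha : 0 < a) (hg : 0 ≤ g) (ν : Measure ℝ) [IsProbabilityMeasure ν] :
    (∫ v, DU A ξ (Function.update u s (ζ + v - a * Complex.I)) ∂ν) -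
      DU A ξ (Function.update u s (ζ - g * Complex.I - a * Complex.I)) =
      -2 * ((Complex.I * PA A ξ u s + KA A ξ u s) *
        (mnu ν (yy A u s ζ a) - mC g (yy A u s ζ a))).re -
      2 * JJ A ξ u s * ((mnu ν (yy A u s ζ a)).im / (yy A u s ζ a).im -
        (mC g (yy A u s ζ a)).im / ((yy A u s ζ a).im + g)) := by
  rw [integral_DU_site hA hu ξ ζ ha ν]
  have h1 : ((ζ : ℂ) - g * Complex.I - a * Complex.I) ≠ zz A u s :=
    ne_zz hA hu (by simp; linarith)
  have h2 : ((ζ : ℂ) - g * Complex.I - a * Complex.I) - zz A u s =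
      -(yy A u s ζ a + g * Complex.I) := by
    rw [yy]; ring
  have hy := yy_im_pos hA hu ζ ha
  rw [DU_formula hA hu ξ h1, h2, norm_neg, mC_im]
  have h3 : (Complex.I * PA A ξ u s + KA A ξ u s) / -(yy A u s ζ a + g * Complex.I) =
      (Complex.I * PA A ξ u s + KA A ξ u s) * mC g (yy A u s ζ a) := by
    rw [mC, div_neg]; ring
  have h4 : ((yy A u s ζ a).im + g) / ‖yy A u s ζ a + g * Complex.I‖ ^ 2 / ((yy A u s ζ a).im + g) =
      1 / ‖yy A u s ζ a + g * Complex.I‖ ^ 2 := by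
    have : (yy A u s ζ a).im + g ≠ 0 := by linarith
    field_simp
  rw [h3, h4, mul_sub, Complex.sub_re]
  ring

/-- ONE TRADE: the increase of the functional is at most `8 X |m_ν - m_C|` -/
theorem trade_le (hA : A.IsSymm) (hu : LossOff u s) (ξ : κ → ι → ℝ) (ζ : ℝ) {a g : ℝ}
    (ha : 0 < a) (hg : 0 ≤ g) (ν : Measure ℝ) [IsProbabilityMeasure ν] :
    (∫ v, DU A ξ (Function.update u s (ζ + v - a * Complex.I)) ∂ν) ≤
      DU A ξ (Function.update u s (ζ - g * Complex.I - a * Complex.I)) +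
      8 * XX A ξ u s * ‖mnu ν (yy A u s ζ a) - mC g (yy A u s ζ a)‖ := by
  have h := trade_exact hA hu ξ ζ ha hg ν
  have hy := yy_im_pos hA hu ζ ha
  set y := yy A u s ζ a with hyd
  set δ := mnu ν y - mC g y with hδ
  set p := Complex.I * PA A ξ u s + KA A ξ u s with hp
  have hX := XX_nonneg (A := A) hu ξ
  have hJ := JJ_nonneg (A := A) (u := u) (s := s) ξ
  have h1 : -2 * (p * δ).re ≤ 6 * XX A ξ u s * ‖δ‖ := by
    have h2 : -(p * δ).re ≤ ‖p‖ * ‖δ‖ := by
      rw [← norm_mul]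
      exact (neg_le_abs _).trans (Complex.abs_re_le_norm _)
    have h3 : ‖p‖ * ‖δ‖ ≤ 3 * XX A ξ u s * ‖δ‖ :=
      mul_le_mul_of_nonneg_right (PK_le hA hu ξ) (norm_nonneg _)
    linarith
  have h4 : (mC g y).im / (y.im + g) ≤ (mC g y).im / y.im := by
    have h5 : 0 ≤ (mC g y).im := by
      rw [mC_im]
      positivity
    exact div_le_div_of_nonneg_left h5 hy (by linarith)
  have h6 : -(2 * JJ A ξ u s * ((mnu ν y).im / y.im - (mC g y).im / (y.im + g))) ≤
      2 * XX A ξ u s * ‖δ‖ := by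
    have h7 : (mC g y).im / (y.im + g) - (mnu ν y).im / y.im ≤ ‖δ‖ / y.im := by
      have h8 : -δ.im ≤ ‖δ‖ := (neg_le_abs _).trans (Complex.abs_im_le_norm _)
      have h9 : (mC g y).im / y.im - (mnu ν y).im / y.im ≤ ‖δ‖ / y.im := by
        rw [← sub_div]
        refine div_le_div_of_nonneg_right ?_ hy.le
        rw [hδ, Complex.sub_im] at h8
        linarith
      linarith
    have h10 : JJ A ξ u s ≤ y.im * XX A ξ u s := by
      refine (JJ_le hA hu ξ).trans (mul_le_mul_of_nonneg_right ?_ hX)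
      rw [hyd, yy_im]
      linarith
    calc -(2 * JJ A ξ u s * ((mnu ν y).im / y.im - (mC g y).im / (y.im + g)))
        = 2 * JJ A ξ u s * ((mC g y).im / (y.im + g) - (mnu ν y).im / y.im) := by ring
      _ ≤ 2 * JJ A ξ u s * (‖δ‖ / y.im) := by gcongr
      _ ≤ 2 * (y.im * XX A ξ u s) * (‖δ‖ / y.im) := by gcongr
      _ = 2 * XX A ξ u s * ‖δ‖ := by field_simp
  linarith

/-- the share of the absorber in terms of `y` -/
theorem share_act (hA : A.IsSymm) (hu : LossOff u s) (ξ : κ → ι → ℝ) (ζ : ℝ) {a g : ℝ}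
    (ha : 0 < a) (hg : 0 ≤ g) :
    share A ξ (Function.update u s (ζ - g * Complex.I - a * Complex.I)) s =
      2 * (g + a) * (XX A ξ u s / ‖yy A u s ζ a + g * Complex.I‖ ^ 2) := by
  have h1 : ((ζ : ℂ) - g * Complex.I - a * Complex.I) ≠ zz A u s :=
    ne_zz hA hu (by simp; linarith)
  have h2 : ((ζ : ℂ) - g * Complex.I - a * Complex.I) - zz A u s =
      -(yy A u s ζ a + g * Complex.I) := by
    rw [yy]; ring
  rw [share_eq hA hu ξ h1, h2, norm_neg]
  have h3 : -((ζ : ℂ) - g * Complex.I - a * Complex.I).im = g + a := by simp; ring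
  rw [h3]

/-- the error of one trade relative to the share of the absorber -/
theorem trade_share (hA : A.IsSymm) (hu : LossOff u s) (ξ : κ → ι → ℝ) (ζ : ℝ) {a g r : ℝ}
    (ha : 0 < a) (hg : 0 < g) (ν : Measure ℝ) [IsProbabilityMeasure ν]
    (hr : ‖mnu ν (yy A u s ζ a) - mC g (yy A u s ζ a)‖ * ‖yy A u s ζ a + g * Complex.I‖ ^ 2 ≤ r * g) :
    (∫ v, DU A ξ (Function.update u s (ζ + v - a * Complex.I)) ∂ν) ≤
      DU A ξ (Function.update u s (ζ - g * Complex.I - a * Complex.I)) +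
      4 * r * share A ξ (Function.update u s (ζ - g * Complex.I - a * Complex.I)) s := by
  refine (trade_le hA hu ξ ζ ha hg.le ν).trans ?_
  rw [share_act hA hu ξ ζ ha hg.le]
  have hX := XX_nonneg (A := A) hu ξ
  have hy := yy_im_pos hA hu ζ ha
  have hn : 0 < ‖yy A u s ζ a + g * Complex.I‖ := by
    rw [norm_pos_iff]
    intro h0
    have := congrArg Complex.im h0
    simp at this
    linarith
  have hr0 : 0 ≤ r := by
    have : 0 ≤ r * g := le_trans (by positivity) hr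
    exact nonneg_of_mul_nonneg_left this hg
  have h1 : ‖mnu ν (yy A u s ζ a) - mC g (yy A u s ζ a)‖ ≤
      r * g / ‖yy A u s ζ a + g * Complex.I‖ ^ 2 := by
    rw [le_div_iff₀ (by positivity)]
    exact hr
  have h2 : 8 * XX A ξ u s * ‖mnu ν (yy A u s ζ a) - mC g (yy A u s ζ a)‖ ≤
      8 * XX A ξ u s * (r * g / ‖yy A u s ζ a + g * Complex.I‖ ^ 2) := by gcongr
  have h3 : 8 * XX A ξ u s * (r * g / ‖yy A u s ζ a + g * Complex.I‖ ^ 2) ≤
      4 * r * (2 * (g + a) * (XX A ξ u s / ‖yy A u s ζ a + g * Complex.I‖ ^ 2)) := by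
    have : 4 * r * (2 * (g + a) * (XX A ξ u s / ‖yy A u s ζ a + g * Complex.I‖ ^ 2)) =
        8 * XX A ξ u s * (r * g / ‖yy A u s ζ a + g * Complex.I‖ ^ 2) +
        8 * r * a * (XX A ξ u s / ‖yy A u s ζ a + g * Complex.I‖ ^ 2) := by ring
    rw [this]
    have : 0 ≤ 8 * r * a * (XX A ξ u s / ‖yy A u s ζ a + g * Complex.I‖ ^ 2) := by positivity
    linarith
  linarith

end Pool.Agent.Lib.MP_562b47_mp.AL
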