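import Pool.Agent.Lib.MP_562b47_mp.AL.Defs

/-!
MP_562b47, algebra of the trades: symmetry, invertibility, the Ward identity and the contraction
property of `Γ^{1/2} G Γ^{1/2}`.
-/

open Matrix Finset

set_option linter.unusedSectionVars false

namespace Pool.Agent.Lib.MP_562b47_mp.AL

variable {ι κ : Type*} [Fintype ι] [DecidableEq ι] [Fintype κ]

theorem HM_apply (A : Matrix ι ι ℝ) (u : ι → ℂ) (x y : ι) :
    HM A u x y = (A x y : ℂ) + if x = y then u x else 0 := by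
  simp [HM, diagonal_apply]

theorem HM_symm {A : Matrix ι ι ℝ} (hA : A.IsSymm) (u : ι → ℂ) : (HM A u)ᵀ = HM A u := by
  ext x y
  rw [transpose_apply, HM_apply, HM_apply, hA.apply]
  by_cases h : x = y
  · subst h; rfl
  · rw [if_neg h, if_neg (Ne.symm h)]

theorem GM_symm {A : Matrix ι ι ℝ} (hA : A.IsSymm) (u : ι → ℂ) (x y : ι) :
    GM A u x y = GM A u y x := by
  have h : (GM A u)ᵀ = GM A u := by
    rw [GM, transpose_nonsing_inv, HM_symm hA]
  conv_lhs => rw [← h]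
  rfl

/-- the imaginary part of the quadratic form -/
theorem HM_form {A : Matrix ι ι ℝ} (hA : A.IsSymm) (u : ι → ℂ) (v : ι → ℂ) :
    (∑ x, (starRingEnd ℂ) (v x) * ∑ y, HM A u x y * v y).im = - ∑ x, gam u x * ‖v x‖ ^ 2 := by
  have h1 : ∀ x, (starRingEnd ℂ) (v x) * ∑ y, HM A u x y * v y =
      (∑ y, (A x y : ℂ) * ((starRingEnd ℂ) (v x) * v y)) + u x * (‖v x‖ ^ 2 : ℝ) := by
    intro x
    have h2 : ∑ y, HM A u x y * v y = (∑ y, (A x y : ℂ) * v y) + u x * v x := by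
      simp_rw [HM_apply, add_mul, sum_add_distrib, ite_mul, zero_mul]
      congr 1
      rw [Finset.sum_ite_eq]
      simp
    rw [h2, mul_add, mul_sum]
    congr 1
    · exact sum_congr rfl fun y _ => by ring
    · have h3 : (starRingEnd ℂ) (v x) * v x = ((‖v x‖ ^ 2 : ℝ) : ℂ) := by
        rw [mul_comm, Complex.mul_conj, Complex.normSq_eq_norm_sq]
      rw [← h3]; ring
  simp_rw [h1]
  rw [sum_add_distrib, Complex.add_im]
  have h4 : (∑ x, ∑ y, (A x y : ℂ) * ((starRingEnd ℂ) (v x) * v y)).im = 0 := by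
    rw [← Complex.conj_eq_iff_im]
    simp_rw [map_sum, map_mul, Complex.conj_conj, Complex.conj_ofReal]
    rw [sum_comm]
    refine sum_congr rfl fun x _ => sum_congr rfl fun y _ => ?_
    rw [hA.apply]
    ring
  rw [h4, zero_add, Complex.im_sum, ← sum_neg_distrib]
  refine sum_congr rfl fun x _ => ?_
  rw [gam, Complex.im_mul_ofReal]
  ring

theorem HM_det {A : Matrix ι ι ℝ} (hA : A.IsSymm) {u : ι → ℂ} (hu : Loss u) :
    IsUnit (HM A u).det := by
  rw [isUnit_iff_ne_zero]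
  intro h0
  obtain ⟨v, hv, hv0⟩ := exists_mulVec_eq_zero_iff.mpr h0
  have h1 := HM_form hA u v
  have h2 : ∀ x, ∑ y, HM A u x y * v y = 0 := fun x => by
    have := congrFun hv0 x
    simpa [mulVec, dotProduct] using this
  simp only [h2, mul_zero, sum_const_zero, Complex.zero_im] at h1
  apply hv
  funext x
  have h3 : ∀ x ∈ univ, 0 ≤ gam u x * ‖v x‖ ^ 2 := fun x _ =>
    mul_nonneg (by unfold gam; linarith [hu x]) (by positivity)
  have h4 : gam u x * ‖v x‖ ^ 2 = 0 := (sum_eq_zero_iff_of_nonneg h3).mp (by linarith) x (mem_univ x)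
  have h5 : gam u x ≠ 0 := by unfold gam; linarith [hu x]
  have h6 := (mul_eq_zero.mp h4).resolve_left h5
  simpa using h6

theorem HM_mul_GM {A : Matrix ι ι ℝ} (hA : A.IsSymm) {u : ι → ℂ} (hu : Loss u) :
    HM A u * GM A u = 1 := mul_nonsing_inv _ (HM_det hA hu)

theorem GM_mul_HM {A : Matrix ι ι ℝ} (hA : A.IsSymm) {u : ι → ℂ} (hu : Loss u) :
    GM A u * HM A u = 1 := nonsing_inv_mul _ (HM_det hA hu)

/-- Ward identity: `G - conj G = 2 i G Γ conj G`. -/
theorem ward {A : Matrix ι ι ℝ} (hA : A.IsSymm) {u : ι → ℂ} (hu : Loss u) :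
    Ward (gam u) (GM A u) := by
  refine ⟨GM_symm hA u, fun x y => ?_⟩
  -- `G - conj G = G (conj H - H) conj G`
  set G := GM A u with hG
  set H := HM A u with hH
  have e1 : G * H = 1 := GM_mul_HM hA hu
  have e2 : H * G = 1 := HM_mul_GM hA hu
  set Gb : Matrix ι ι ℂ := G.map (starRingEnd ℂ) with hGb
  set Hb : Matrix ι ι ℂ := H.map (starRingEnd ℂ) with hHb
  have e3 : Hb * Gb = 1 := by
    rw [hHb, hGb, ← Matrix.map_mul, e2]
    simp
  have e4 : G - Gb = G * (Hb - H) * Gb := by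
    rw [mul_sub, sub_mul, mul_assoc, e3, mul_one, e1, one_mul]
  have e5 : Hb - H = diagonal (fun k => 2 * Complex.I * (gam u k : ℂ)) := by
    ext k l
    rw [Matrix.sub_apply, hHb, map_apply, hH, HM_apply, diagonal_apply, map_add, Complex.conj_ofReal]
    by_cases h : k = l
    · subst h
      simp only [if_true]
      apply Complex.ext <;> simp [gam]
      ring
    · simp [h]
  have e6 := congrFun (congrFun e4 x) y
  rw [e5, Matrix.sub_apply, mul_apply] at e6
  simp only [mul_diagonal] at e6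
  rw [hGb] at e6
  simp only [map_apply] at e6
  rw [e6, mul_sum]
  exact sum_congr rfl fun k _ => by ring

section wardConsequences

variable {γ : ι → ℝ} {G : Matrix ι ι ℂ}

/-- the conjugate form of the Ward identity -/
theorem Ward.conj (h : Ward γ G) (x y : ι) : G x y - (starRingEnd ℂ) (G x y) =
    2 * Complex.I * ∑ k, (γ k : ℂ) * (starRingEnd ℂ) (G x k) * G k y := by
  have h1 := congrArg (starRingEnd ℂ) (h.2 x y)
  simp only [map_sub, map_mul, map_sum, Complex.conj_conj, Complex.conj_ofReal, Complex.conj_I,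
    map_ofNat] at h1
  linear_combination -h1

theorem Ward.im_eq (h : Ward γ G) (x y : ι) : ((G x y).im : ℂ) =
    ∑ k, (γ k : ℂ) * (starRingEnd ℂ) (G x k) * G k y := by
  have h1 := h.conj x y
  rw [Complex.sub_conj] at h1
  have h2 : (2 * Complex.I : ℂ) ≠ 0 := by simp
  apply mul_left_cancel₀ h2
  rw [← h1]
  push_cast
  ring

theorem Ward.im_diag (h : Ward γ G) (x : ι) : (G x x).im = ∑ k, γ k * ‖G k x‖ ^ 2 := by
  have h1 := h.im_eq x x
  have h2 : ∀ k, (γ k : ℂ) * (starRingEnd ℂ) (G x k) * G k x = ((γ k * ‖G k x‖ ^ 2 : ℝ) : ℂ) := by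
    intro k
    rw [h.1 x k, mul_assoc, mul_comm ((starRingEnd ℂ) (G k x)), Complex.mul_conj,
      Complex.normSq_eq_norm_sq]
    push_cast
    ring
  simp_rw [h2] at h1
  rw [← Complex.ofReal_sum] at h1
  exact_mod_cast h1

/-- `Γ^{1/2} G Γ^{1/2}` is a contraction -/
theorem Ward.contract (hγ : ∀ x, 0 ≤ γ x) (h : Ward γ G) (c : ι → ℂ) :
    ∑ x, γ x * ‖∑ y, G x y * (Real.sqrt (γ y) * c y)‖ ^ 2 ≤ ∑ y, ‖c y‖ ^ 2 := by
  set v : ι → ℂ := fun x => ∑ y, G x y * (Real.sqrt (γ y) * c y) with hv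
  set N := ∑ x, γ x * ‖v x‖ ^ 2 with hN
  set C := ∑ y, ‖c y‖ ^ 2 with hC
  have hN0 : 0 ≤ N := sum_nonneg fun x _ => mul_nonneg (hγ x) (by positivity)
  have hC0 : 0 ≤ C := sum_nonneg fun x _ => by positivity
  -- `N = Im ⟨Γ^{1/2} c, v⟩`
  have h1 : (N : ℂ) = ∑ x, ∑ y, (starRingEnd ℂ) (Real.sqrt (γ x) * c x) *
      ((G x y).im : ℂ) * (Real.sqrt (γ y) * c y) := by
    have h2 : ∀ x, ((γ x * ‖v x‖ ^ 2 : ℝ) : ℂ) = ∑ p, ∑ q, (starRingEnd ℂ) (Real.sqrt (γ p) * c p) *
        ((γ x : ℂ) * (starRingEnd ℂ) (G p x) * G x q) * (Real.sqrt (γ q) * c q) := by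
      intro x
      have h3 : ((γ x * ‖v x‖ ^ 2 : ℝ) : ℂ) = (γ x : ℂ) * ((starRingEnd ℂ) (v x) * v x) := by
        rw [mul_comm ((starRingEnd ℂ) (v x)), Complex.mul_conj, Complex.normSq_eq_norm_sq]
        push_cast
        ring
      rw [h3, hv]
      simp only [map_sum, map_mul]
      rw [sum_mul_sum, mul_sum]
      refine sum_congr rfl fun p _ => ?_
      rw [mul_sum]
      refine sum_congr rfl fun q _ => ?_
      rw [h.1 x p]
      ring
    rw [hN, Complex.ofReal_sum]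
    simp_rw [h2]
    rw [sum_comm]
    refine sum_congr rfl fun p _ => ?_
    rw [sum_comm]
    refine sum_congr rfl fun q _ => ?_
    rw [h.im_eq p q, ← sum_mul, ← mul_sum]
  have h4 : (∑ x, ∑ y, (starRingEnd ℂ) (Real.sqrt (γ x) * c x) *
      ((G x y).im : ℂ) * (Real.sqrt (γ y) * c y)) =
      ((∑ x, (starRingEnd ℂ) (Real.sqrt (γ x) * c x) * v x) -
        (starRingEnd ℂ) (∑ x, (starRingEnd ℂ) (Real.sqrt (γ x) * c x) * v x)) / (2 * Complex.I) := by
    have h5 : (starRingEnd ℂ) (∑ x, (starRingEnd ℂ) (Real.sqrt (γ x) * c x) * v x) =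
        ∑ x, ∑ y, (starRingEnd ℂ) (Real.sqrt (γ x) * c x) * (starRingEnd ℂ) (G x y) *
          (Real.sqrt (γ y) * c y) := by
      rw [hv]
      simp only [map_sum, map_mul, Complex.conj_conj, mul_sum]
      rw [sum_comm]
      refine sum_congr rfl fun p _ => sum_congr rfl fun q _ => ?_
      rw [h.1 q p]
      ring
    have h6 : (∑ x, (starRingEnd ℂ) (Real.sqrt (γ x) * c x) * v x) =
        ∑ x, ∑ y, (starRingEnd ℂ) (Real.sqrt (γ x) * c x) * G x y *
          (Real.sqrt (γ y) * c y) := by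
      rw [hv]
      simp only [mul_sum]
      refine sum_congr rfl fun p _ => sum_congr rfl fun q _ => ?_
      ring
    rw [h5, h6, eq_div_iff (by simp), sum_mul, ← sum_sub_distrib]
    refine sum_congr rfl fun p _ => ?_
    rw [sum_mul, ← sum_sub_distrib]
    refine sum_congr rfl fun q _ => ?_
    have := Complex.sub_conj (G p q)
    push_cast at this
    linear_combination (-(starRingEnd ℂ) (Real.sqrt (γ p) * c p) * (Real.sqrt (γ q) * c q)) * this
  set W := ∑ x, (starRingEnd ℂ) (Real.sqrt (γ x) * c x) * v x with hW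
  have h7 : N = W.im := by
    rw [h4, Complex.sub_conj] at h1
    have h8 : ((2 * W.im : ℝ) : ℂ) * Complex.I / (2 * Complex.I) = (W.im : ℂ) := by
      have : (2 * Complex.I : ℂ) ≠ 0 := by simp
      field_simp
      push_cast
      ring
    rw [h8] at h1
    exact_mod_cast h1
  have h9 : N ≤ ‖W‖ := h7 ▸ (le_abs_self _).trans (Complex.abs_im_le_norm W)
  have h10 : ‖W‖ ≤ ∑ x, ‖c x‖ * (Real.sqrt (γ x) * ‖v x‖) := by
    refine (norm_sum_le _ _).trans (sum_le_sum fun x _ => ?_)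
    rw [norm_mul, RCLike.norm_conj, norm_mul, Complex.norm_real, Real.norm_of_nonneg (Real.sqrt_nonneg _)]
    exact le_of_eq (by ring)
  have h11 : (∑ x, ‖c x‖ * (Real.sqrt (γ x) * ‖v x‖)) ^ 2 ≤ C * N := by
    refine (sum_mul_sq_le_sq_mul_sq _ _ _).trans (le_of_eq ?_)
    congr 1
    refine sum_congr rfl fun x _ => ?_
    rw [mul_pow, Real.sq_sqrt (hγ x)]
  have h12 : N ^ 2 ≤ C * N := by
    refine le_trans ?_ h11
    have := h9.trans h10
    gcongr
  rcases hN0.eq_or_lt with h0 | h0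
  · rw [← h0]; exact hC0
  · nlinarith

/-- the bilinear form of `Γ^{1/2} conj(G) Γ^{1/2}` -/
theorem Ward.bilin (hγ : ∀ x, 0 ≤ γ x) (h : Ward γ G) (b c : ι → ℂ) :
    ‖∑ x, ∑ y, (starRingEnd ℂ) (G x y) * (Real.sqrt (γ x) * b x) * (Real.sqrt (γ y) * c y)‖ ≤
      Real.sqrt (∑ x, ‖b x‖ ^ 2) * Real.sqrt (∑ y, ‖c y‖ ^ 2) := by
  set v : ι → ℂ := fun x => ∑ y, G x y * (Real.sqrt (γ y) * (starRingEnd ℂ) (c y)) with hv
  have h1 : (∑ x, ∑ y, (starRingEnd ℂ) (G x y) * (Real.sqrt (γ x) * b x) * (Real.sqrt (γ y) * c y)) =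
      ∑ x, b x * (Real.sqrt (γ x) * (starRingEnd ℂ) (v x)) := by
    refine sum_congr rfl fun x _ => ?_
    rw [hv]
    simp only [map_sum, map_mul, Complex.conj_conj, Complex.conj_ofReal]
    rw [mul_sum, mul_sum]
    exact sum_congr rfl fun y _ => by ring
  rw [h1, ← Real.sqrt_mul (sum_nonneg fun x _ => by positivity)]
  apply Real.le_sqrt_of_sq_le
  have h2 : ‖∑ x, b x * (Real.sqrt (γ x) * (starRingEnd ℂ) (v x))‖ ≤
      ∑ x, ‖b x‖ * (Real.sqrt (γ x) * ‖v x‖) := by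
    refine (norm_sum_le _ _).trans (sum_le_sum fun x _ => ?_)
    rw [norm_mul, norm_mul, RCLike.norm_conj, Complex.norm_real,
      Real.norm_of_nonneg (Real.sqrt_nonneg _)]
  calc ‖∑ x, b x * (Real.sqrt (γ x) * (starRingEnd ℂ) (v x))‖ ^ 2
      ≤ (∑ x, ‖b x‖ * (Real.sqrt (γ x) * ‖v x‖)) ^ 2 := by gcongr
    _ ≤ (∑ x, ‖b x‖ ^ 2) * ∑ x, (Real.sqrt (γ x) * ‖v x‖) ^ 2 := sum_mul_sq_le_sq_mul_sq _ _ _
    _ = (∑ x, ‖b x‖ ^ 2) * ∑ x, γ x * ‖v x‖ ^ 2 := by
        congr 1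
        refine sum_congr rfl fun x _ => ?_
        rw [mul_pow, Real.sq_sqrt (hγ x)]
    _ ≤ (∑ x, ‖b x‖ ^ 2) * ∑ y, ‖c y‖ ^ 2 := by
        refine mul_le_mul_of_nonneg_left ?_ (sum_nonneg fun x _ => by positivity)
        refine (h.contract hγ (fun y => (starRingEnd ℂ) (c y))).trans (le_of_eq ?_)
        exact sum_congr rfl fun y _ => by rw [RCLike.norm_conj]

end wardConsequences

/-- the diagonal Green function has positive imaginary part -/
theorem GM_im_pos {A : Matrix ι ι ℝ} (hA : A.IsSymm) {u : ι → ℂ} (hu : Loss u) (s : ι) :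
    0 < (GM A u s s).im := by
  rw [(ward hA hu).im_diag]
  have hg : ∀ k, 0 < gam u k := fun k => by unfold gam; linarith [hu k]
  rcases (sum_nonneg (s := univ) fun k _ => mul_nonneg (hg k).le (sq_nonneg ‖GM A u k s‖)).lt_or_eq
    with h | h
  · exact h
  · exfalso
    have h1 : ∀ k, GM A u k s = 0 := fun k => by
      have h2 := (sum_eq_zero_iff_of_nonneg fun k _ => mul_nonneg (hg k).le
        (sq_nonneg ‖GM A u k s‖)).mp h.symm k (mem_univ k)
      have h3 := (mul_eq_zero.mp h2).resolve_left (hg k).ne'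
      simpa using h3
    have h4 := congrFun (congrFun (HM_mul_GM hA hu) s) s
    rw [mul_apply] at h4
    simp [h1] at h4

end Pool.Agent.Lib.MP_562b47_mp.AL
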